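import Pool.Agent.W872.SP.Defs

/-!
# Complete subalgebras given by generic pairs
-/

namespace Pool.Agent.W872.SP

variable {P : Type} [Preorder P]

theorem neg_anti {b : Set P} {p q : P} (h : p ∈ Neg b) (hq : q ≤ p) : q ∈ Neg b :=
  fun r hr => h r (hr.trans hq)

theorem exists_neg {b : Set P} (hb : RegOpen b) {p : P} (h : p ∉ b) : ∃ q ≤ p, q ∈ Neg b := by
  by_contra hc
  push Not at hc
  apply h
  rw [← hb.2]
  exact fun q hq hn => hc q hq hn

theorem regOpen_of {b : Set P} (h1 : ∀ p ∈ b, ∀ q ≤ p, q ∈ b)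
    (h2 : ∀ p, p ∉ b → ∃ q ≤ p, q ∈ Neg b) : RegOpen b := by
  refine ⟨h1, ?_⟩
  ext p
  constructor
  · intro h
    by_contra hc
    obtain ⟨q, hq, hn⟩ := h2 p hc
    exact h q hq hn
  · intro h q hq hn
    exact hn q le_rfl (h1 p h q hq)

theorem regOpen_neg {b : Set P} (hb : RegOpen b) : RegOpen (Neg b) :=
  ⟨fun _ hp _ hq => neg_anti hp hq, by rw [hb.2]⟩

theorem regOpen_sInter {S : Set (Set P)} (h : ∀ b ∈ S, RegOpen b) : RegOpen (⋂₀ S) := by
  refine regOpen_of (fun p hp q hq b hb => (h b hb).1 p (hp b hb) q hq) fun p hp => ?_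
  simp only [Set.mem_sInter, not_forall] at hp
  obtain ⟨b, hb, hpb⟩ := hp
  obtain ⟨q, hq, hn⟩ := exists_neg (h b hb) hpb
  exact ⟨q, hq, fun r hr hrS => hn r hr (hrS b hb)⟩

/-- Dense open subsets. -/
def DenseOpen (D : Set P) : Prop := (∀ p ∈ D, ∀ q ≤ p, q ∈ D) ∧ ∀ p, ∃ q ≤ p, q ∈ D

/-- A relation such that both coordinates of a generic pair are generic. -/
structure GenPair (R : P → P → Prop) : Prop where
  left : ∀ p q, R p q → ∀ D, DenseOpen D → ∃ p' ≤ p, ∃ q' ≤ q, R p' q' ∧ p' ∈ D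
  right : ∀ p q, R p q → ∀ D, DenseOpen D → ∃ p' ≤ p, ∃ q' ≤ q, R p' q' ∧ q' ∈ D

/-- The subalgebra of the regular open sets that do not separate generic pairs. -/
def PairAlg (R : P → P → Prop) : Set (Set P) :=
  {b | RegOpen b ∧ ∀ p q, R p q → ¬ (p ∈ b ∧ q ∈ Neg b) ∧ ¬ (p ∈ Neg b ∧ q ∈ b)}

theorem pairAlg_complete {R : P → P → Prop} (hR : GenPair R) : CompleteSubalgebra (PairAlg R) := by
  refine ⟨fun b hb => hb.1, fun b hb => ⟨regOpen_neg hb.1, fun p q h => ?_⟩, fun S hS => ?_⟩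
  · rw [hb.1.2]
    exact ⟨(hb.2 p q h).2, (hb.2 p q h).1⟩
  · have hreg : RegOpen (⋂₀ S) := regOpen_sInter fun b hb => (hS hb).1
    have hD : DenseOpen {r : P | r ∈ ⋂₀ S ∨ ∃ b ∈ S, r ∈ Neg b} := by
      refine ⟨?_, fun p => ?_⟩
      · rintro p (h | ⟨b, hb, h⟩) q hq
        · exact Or.inl (hreg.1 p h q hq)
        · exact Or.inr ⟨b, hb, neg_anti h hq⟩
      · by_cases h : p ∈ ⋂₀ S
        · exact ⟨p, le_rfl, Or.inl h⟩
        · simp only [Set.mem_sInter, not_forall] at h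
          obtain ⟨b, hb, hpb⟩ := h
          obtain ⟨q, hq, hn⟩ := exists_neg (hS hb).1 hpb
          exact ⟨q, hq, Or.inr ⟨b, hb, hn⟩⟩
    refine ⟨hreg, fun p q h => ⟨?_, ?_⟩⟩
    · rintro ⟨h1, h2⟩
      obtain ⟨p', hp', q', hq', h', hD'⟩ := hR.right p q h _ hD
      rcases hD' with h3 | ⟨b, hb, h3⟩
      · exact h2 q' hq' h3
      · exact ((hS hb).2 p' q' h').1 ⟨hreg.1 p h1 p' hp' b hb, h3⟩
    · rintro ⟨h1, h2⟩
      obtain ⟨p', hp', q', hq', h', hD'⟩ := hR.left p q h _ hD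
      rcases hD' with h3 | ⟨b, hb, h3⟩
      · exact h1 p' hp' h3
      · exact ((hS hb).2 p' q' h').2 ⟨h3, hreg.1 q h2 q' hq' b hb⟩

/-- The least element of `B` above `q`. -/
def proj (B : Set (Set P)) (q : P) : Set P := ⋂₀ {b ∈ B | q ∈ b}

theorem proj_mem {B : Set (Set P)} (hB : CompleteSubalgebra B) (q : P) : proj B q ∈ B :=
  hB.inter _ fun _ hb => hb.1

theorem mem_proj (B : Set (Set P)) (q : P) : q ∈ proj B q := fun _ hb => hb.2

theorem proj_sub {B : Set (Set P)} {b : Set P} (hb : b ∈ B) {q : P} (h : q ∈ b) : proj B q ⊆ b :=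
  fun _ hr => hr b ⟨hb, h⟩

/-- membership in the quotient, forced by a condition of `P` -/
abbrev InQ (B : Set (Set P)) (p q : P) : Prop := ForcesInQuot (fun (p : P) b => p ∈ b) B p q

theorem InQ.mono {B : Set (Set P)} {p p' q : P} (h : InQ B p q) (hp : p' ≤ p) : InQ B p' q :=
  fun g hg b hb hgb => h g (hg.trans hp) b hb hgb

theorem inQ_of_mem_proj {B : Set (Set P)} (hB : CompleteSubalgebra B) {p q : P}
    (h : p ∈ proj B q) : InQ B p q := by
  intro g hg b hb hgb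
  by_contra hc
  push Not at hc
  have h1 : q ∈ Neg b := hc
  exact proj_sub (hB.neg b hb) h1 h g hg hgb

theorem InQ.exists_dense {B : Set (Set P)} (hB : CompleteSubalgebra B) {p q : P} (h : InQ B p q)
    {D : Set P} (hD : DenseOpen D) : ∃ p' ≤ p, ∃ q' ≤ q, q' ∈ D ∧ InQ B p' q' := by
  by_contra hc
  push Not at hc
  have h1 : p ∈ ⋂₀ {b | ∃ q' ≤ q, q' ∈ D ∧ b = Neg (proj B q')} := by
    rintro b ⟨q', hq', hD', rfl⟩ p' hp' hm
    exact hc p' hp' q' hq' hD' (inQ_of_mem_proj hB hm)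
  have h2 : ⋂₀ {b | ∃ q' ≤ q, q' ∈ D ∧ b = Neg (proj B q')} ∈ B := by
    refine hB.inter _ ?_
    rintro b ⟨q', -, -, rfl⟩
    exact hB.neg _ (proj_mem hB q')
  obtain ⟨r, hr, hm⟩ := h p le_rfl _ h2 h1
  obtain ⟨q', hq', hD'⟩ := hD.2 r
  have h3 := hm _ ⟨q', hq'.trans hr, hD', rfl⟩
  exact h3 q' hq' (mem_proj B q')

/-- if the pair is compatible over `B`, then some extension of `p` forces `q` in the quotient -/
theorem exists_inQ {R : P → P → Prop} (hR : GenPair R) {p q : P} (h : R p q) :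
    ∃ p' ≤ p, InQ (PairAlg R) p' q := by
  have hB := pairAlg_complete hR
  have h1 : p ∉ Neg (proj (PairAlg R) q) := fun hn =>
    ((proj_mem hB q).2 p q h).2 ⟨hn, mem_proj _ q⟩
  simp only [Neg, Set.mem_setOf_eq, not_forall, not_not] at h1
  obtain ⟨p', hp', hm⟩ := h1
  exact ⟨p', hp', inQ_of_mem_proj hB hm⟩

end Pool.Agent.W872.SP
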