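import Pool.Agent.W872.SP.Basic

/-!
# Cardinal arithmetic
-/

set_option linter.unusedSectionVars false
set_option linter.unusedVariables false

namespace Pool.Agent.W872.SP

open Cardinal Ordinal

/-- the generalised continuum hypothesis -/
def GCH : Prop := ∀ μ : Cardinal.{0}, ℵ₀ ≤ μ → 2 ^ μ = Order.succ μ

theorem two_power_le (hG : GCH) {μ ν : Cardinal.{0}} (h : ν < μ) (hμ : ℵ₀ ≤ μ) : 2 ^ ν ≤ μ := by
  rcases lt_or_ge ν ℵ₀ with h1 | h1
  · exact (power_lt_aleph0 (natCast_lt_aleph0 (n := 2)) h1).le.trans hμ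
  · rw [hG ν h1]
    exact Order.succ_le_of_lt h

theorem bounded_of_lt_cof {T : Type} [LinearOrder T] {s : Set T} (h : #s < Order.cof T) :
    ∃ a, ∀ b ∈ s, b < a := by
  by_contra hc
  push Not at hc
  exact absurd (Order.cof_le (s := s) hc) (not_le_of_gt h)

variable {κ : Cardinal.{0}}

theorem mk_small_subsets (hG : GCH) {T : Type} [LinearOrder T] [WellFoundedLT T]
    (hT : ord #T = typeLT T) (hcof : κ ≤ Order.cof T) (hinf : ℵ₀ ≤ #T) :
    #{x : Set T // #x < κ} ≤ #T := by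
  have h1 : ∀ x : {x : Set T // #x < κ}, ∃ a, ∀ b ∈ x.1, b < a :=
    fun x => bounded_of_lt_cof (lt_of_lt_of_le x.2 hcof)
  choose a ha using h1
  have h2 : Function.Injective fun x : {x : Set T // #x < κ} =>
      (⟨a x, {b | b.1 ∈ x.1}⟩ : Σ a : T, Set (Set.Iio a)) := by
    intro x y h
    simp only [Sigma.mk.injEq] at h
    obtain ⟨h3, h4⟩ := h
    apply Subtype.ext
    have key : ∀ (a b : T) (s t : Set T), a = b → HEq ({z : Set.Iio a | z.1 ∈ s}) ({z : Set.Iio b | z.1 ∈ t}) →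
        (∀ z ∈ s, z < a) → (∀ z ∈ t, z < b) → s = t := by
      rintro a b s t rfl h hs ht
      have h' := eq_of_heq h
      ext z
      constructor
      · intro hz
        have : (⟨z, hs z hz⟩ : Set.Iio a) ∈ {z : Set.Iio a | z.1 ∈ s} := hz
        rw [h'] at this
        exact this
      · intro hz
        have : (⟨z, ht z hz⟩ : Set.Iio a) ∈ {z : Set.Iio a | z.1 ∈ t} := hz
        rw [← h'] at this
        exact this
    exact key _ _ _ _ h3 h4 (ha x) (ha y)
  refine (mk_le_of_injective h2).trans ?_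
  rw [mk_sigma]
  refine (sum_le_sum _ (fun _ => #T) fun a => ?_).trans ?_
  · rw [mk_set]
    exact two_power_le hG (Cardinal.mk_Iio_lt a hT) hinf
  · rw [sum_const, Cardinal.lift_id, mul_eq_self hinf]

variable {μ : Cardinal.{0}}

/-- the type `(succ μ).ord.ToType` -/
theorem mk_toType (lam : Cardinal.{0}) : #(lam.ord.ToType) = lam := by
  rw [mk_ord_toType]

theorem typeLT_toType (lam : Cardinal.{0}) : ord #(lam.ord.ToType) = typeLT lam.ord.ToType := by
  rw [mk_toType, type_toType]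

theorem mk_PK (hG : GCH) {lam : Cardinal.{0}} (hl : lam.IsRegular) (hκ : κ ≤ lam) :
    #(PK κ lam.ord.ToType) ≤ lam := by
  have h := mk_small_subsets (κ := κ) hG (T := lam.ord.ToType) (typeLT_toType lam)
    (by rw [cof_toType, hl.cof_ord]; exact hκ) (by rw [mk_toType]; exact hl.aleph0_le)
  rwa [mk_toType] at h

section small

variable {L : Type} [LinearOrder L] [WellFoundedLT L]

/-- the small subsets of the initial segment below `m` -/
abbrev QQ (κ : Cardinal.{0}) (m : L) : Type := {x : Set (Set.Iio m) // #x < κ}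

theorem mk_Iio_m {m : L} (hm : typein (α := L) (· < ·) m = μ.ord) : #(Set.Iio m) = μ := by
  have h : card (typein (α := L) (· < ·) m) = #(Set.Iio m) := card_typein _
  rw [← h, hm, card_ord]

theorem mk_QQ (hG : GCH) {m : L} (hm : typein (α := L) (· < ·) m = μ.ord)
    (hcof : κ ≤ μ.ord.cof) (hμ : ℵ₀ ≤ μ) : #(QQ κ m) ≤ μ := by
  have h1 : typeLT (Set.Iio m) = μ.ord := by
    rw [← hm]
    exact type_Iio_lt m
  have h := mk_small_subsets (κ := κ) hG (T := Set.Iio m) (by rw [mk_Iio_m hm, h1])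
    (by rw [← cof_type, h1]; exact hcof) (by rw [mk_Iio_m hm]; exact hμ)
  rwa [mk_Iio_m hm] at h

theorem mk_codes (hG : GCH) {m : L} (hm : typein (α := L) (· < ·) m = μ.ord)
    (hcof : κ ≤ μ.ord.cof) (hμ : ℵ₀ ≤ μ) :
    #(QQ κ m → Set (QQ κ m × QQ κ m)) ≤ Order.succ μ := by
  have h := mk_QQ hG hm hcof hμ
  rw [← power_def, mk_set, mk_prod, Cardinal.lift_id, ← hG μ hμ, ← power_mul]
  refine power_le_power_left two_ne_zero ?_
  calc #(QQ κ m) * #(QQ κ m) * #(QQ κ m) ≤ μ * μ * μ := by gcongr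
    _ = μ := by rw [mul_eq_self hμ, mul_eq_self hμ]

/-- the trace on the initial segment below `m` -/
def kpm (m : L) (x : PK κ L) : QQ κ m :=
  ⟨{b | b.1 ∈ x.1}, lt_of_le_of_lt (mk_le_of_injective (f := fun b : {b : Set.Iio m | b.1 ∈ x.1} =>
    (⟨b.1.1, b.2⟩ : x.1)) (by
      intro a b h
      simp only [Subtype.mk.injEq] at h
      exact Subtype.ext (Subtype.ext h))) x.2⟩

theorem mem_kpm {m : L} {x : PK κ L} {b : Set.Iio m} : b ∈ (kpm m x).1 ↔ b.1 ∈ x.1 := Iff.rfl

end small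

end Pool.Agent.W872.SP
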