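import Pool.Agent.W872.SP.Gen
import Pool.Agent.W872.SP.Card

/-!
# Incompatibility
-/

set_option linter.unusedSectionVars false
set_option linter.unusedVariables false

namespace Pool.Agent.W872.SP

open Cardinal Ordinal

variable {κ : Cardinal.{0}} {L : Type} [LinearOrder L] [WellFoundedLT L]
variable {U : Ultrafilter (PK κ L)} {Q C : Type}
variable {kp : PK κ L → Q} {c : L → Q → C} {e E : PK κ L → L} {Φ : L → Q → Set C}

/-- typical elements of `P_κ(L)` -/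
structure Typ (kp : PK κ L → Q) (c : L → Q → C) (E : PK κ L → L) (F₁ F₂ : L → L → L)
    (z : PK κ L) : Prop where
  ne : ∀ σ ∈ z.1, ∀ τ ∈ z.1, σ ≠ τ → c σ (kp z) ≠ c τ (kp z)
  cl : ∀ x, Prec κ x z → E x ∈ z.1
  f₁ : ∀ a ∈ z.1, ∀ b ∈ z.1, F₁ a b ∈ z.1
  f₂ : ∀ a ∈ z.1, ∀ b ∈ z.1, F₂ a b ∈ z.1

theorem no_interleaving {F₁ F₂ : L → L → L} (hE : Function.Injective E) {m : ℕ}
    {xs ys : ℕ → PK κ L}
    (hxT : ∀ n ≤ m, Typ kp c E F₁ F₂ (xs n)) (hyT : ∀ n ≤ m, Typ kp c E F₁ F₂ (ys n))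
    (hx : ∀ n < m, Prec κ (xs n) (xs (n + 1))) (hy : ∀ n < m, Prec κ (ys n) (ys (n + 1)))
    (hk : ∀ n ≤ m, kp (xs n) = kp (ys n))
    (hm : ∀ n < m, c (E (xs n)) (kp (xs (n + 1))) = c (E (ys n)) (kp (ys (n + 1))))
    (h0 : xs 0 ≠ ys 0) {Δ : L}
    (hxΔ : ∀ n ≤ m, ∀ γ ∈ (xs n).1, Δ ≤ γ → Δ ∈ (xs n).1)
    (hyΔ : ∀ n ≤ m, ∀ γ ∈ (ys n).1, Δ ≤ γ → Δ ∈ (ys n).1)
    (hcl : ∀ x : PK κ L, x.1 ⊆ Set.Iio Δ → E x < Δ)
    (hdet : ∀ z w : PK κ L, Typ kp c E F₁ F₂ z → Typ kp c E F₁ F₂ w → kp z = kp w → Δ ∈ z.1 →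
      Δ ∈ w.1 → ∀ β < Δ, β ∈ z.1 → β ∈ w.1)
    (h0Δ : Δ ∉ (xs 0).1) (hmx : Δ ∈ (xs m).1) (hmy : Δ ∈ (ys m).1) : False := by
  have h1 : ∀ n < m, xs n ≠ ys n → E (ys n) ∉ (xs (n + 1)).1 := by
    intro n hn hne hmem
    refine (hxT (n + 1) hn).ne _ ((hxT (n + 1) hn).cl _ (hx n hn)) _ hmem (fun h => hne (hE h)) ?_
    rw [hm n hn, hk (n + 1) hn]
  have h2 : ∀ n < m, xs n ≠ ys n → E (xs n) ∉ (ys (n + 1)).1 := by
    intro n hn hne hmem
    refine (hyT (n + 1) hn).ne _ ((hyT (n + 1) hn).cl _ (hy n hn)) _ hmem (fun h => hne (hE h).symm) ?_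
    rw [← hm n hn, hk (n + 1) hn]
  have hne : ∀ n ≤ m, xs n ≠ ys n := by
    intro n
    induction n with
    | zero => exact fun _ => h0
    | succ n ih =>
      intro hn h
      apply h1 n hn (ih (Nat.le_of_lt hn))
      rw [h]
      exact (hyT (n + 1) hn).cl _ (hy n hn)
  classical
  have hex : ∃ n, Δ ∈ (xs n).1 ∧ Δ ∈ (ys n).1 := ⟨m, hmx, hmy⟩
  have hle : Nat.find hex ≤ m := Nat.find_min' hex ⟨hmx, hmy⟩
  obtain ⟨k, hk'⟩ : ∃ k, Nat.find hex = k + 1 := by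
    refine Nat.exists_eq_succ_of_ne_zero fun h => ?_
    have := Nat.find_spec hex
    rw [h] at this
    exact h0Δ this.1
  have hspec := Nat.find_spec hex
  rw [hk'] at hspec hle
  have hmin := Nat.find_min hex (m := k) (by omega)
  rw [not_and_or] at hmin
  have hsub : ∀ z : PK κ L, (∀ γ ∈ z.1, Δ ≤ γ → Δ ∈ z.1) → Δ ∉ z.1 → E z < Δ := by
    intro z h3 h4
    refine hcl z fun γ hγ => ?_
    by_contra h5
    exact h4 (h3 γ hγ (not_lt.1 h5))
  rcases hmin with h | h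
  · have h3 := hsub _ (hxΔ k (by omega)) h
    have h4 := (hxT (k + 1) hle).cl _ (hx k hle)
    exact h2 k hle (hne k (by omega)) (hdet _ _ (hxT (k + 1) hle) (hyT (k + 1) hle)
      (hk (k + 1) hle) hspec.1 hspec.2 _ h3 h4)
  · have h3 := hsub _ (hyΔ k (by omega)) h
    have h4 := (hyT (k + 1) hle).cl _ (hy k hle)
    exact h1 k hle (hne k (by omega)) (hdet _ _ (hyT (k + 1) hle) (hxT (k + 1) hle)
      (hk (k + 1) hle).symm hspec.2 hspec.1 _ h3 h4)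

theorem chain_get {s : List (PK κ L)} (hs : s.IsChain (Prec κ)) {n : ℕ} {a b : PK κ L}
    (ha : s[n]? = some a) (hb : s[n + 1]? = some b) : Prec κ a b := by
  induction s generalizing n with
  | nil => simp at ha
  | cons x s ih =>
    match s, hs, ih with
    | [], _, _ => simp at hb
    | y :: s, hs, ih =>
      rw [List.isChain_cons_cons] at hs
      match n with
      | 0 =>
        simp only [List.getElem?_cons_zero, Option.some.injEq, zero_add,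
          List.getElem?_cons_succ] at ha hb
        rw [← ha, ← hb]
        exact hs.1
      | n + 1 =>
        rw [List.getElem?_cons_succ] at ha hb
        exact ih hs.2 ha hb

theorem mem_get {s : List (PK κ L)} (hs : s.IsChain (Prec κ)) {n : ℕ} {a : PK κ L} {Δ : L}
    (ha : s[n]? = some a) (hΔ : Δ ∈ a.1) : ∀ k b, n ≤ k → s[k]? = some b → Δ ∈ b.1 := by
  intro k b hk
  induction hk generalizing b with
  | refl =>
    intro hb
    rw [ha] at hb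
    rwa [← Option.some.inj hb]
  | @step k hk ih =>
    intro hb
    have h1 : k < s.length := by
      have := (List.getElem?_eq_some_iff.1 hb).1
      omega
    have h2 := chain_get hs (List.getElem?_eq_getElem h1) hb
    exact h2.1 (ih _ (List.getElem?_eq_getElem h1))

/-- all the elements of the condition are in `A` -/
def Inv (A : Set (PK κ L)) (p : Cond κ U) : Prop := (∀ z ∈ p.stem, z ∈ A) ∧ p.A ⊆ A

theorem Inv.mono {A : Set (PK κ L)} {p q : Cond κ U} (h : Inv A p) (hq : q ≤ p) : Inv A q := by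
  obtain ⟨r, h1, h2, h3⟩ := hq
  refine ⟨fun z hz => ?_, h3.trans h.2⟩
  rw [h1] at hz
  rcases List.mem_append.1 hz with hz | hz
  · exact h.1 z hz
  · exact h.2 (h2 z hz)

variable (hU : FineNormal κ U) (hL : κ.ord ≤ typeLT L) (hG : Good U kp c e Φ E)
  (hc : ∀ σ τ ν ν', c σ ν = c τ ν' → ν = ν') (hne : ∀ ν, {x | kp x ≠ ν} ∈ U)

include hU hL in
theorem denseOpen_mem (Δ : L) :
    DenseOpen {p : Cond κ U | ∃ (n : ℕ) (z : PK κ L), p.stem[n]? = some z ∧ Δ ∈ z.1} := by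
  refine ⟨?_, fun p => ?_⟩
  · rintro p ⟨n, z, h1, h2⟩ q hq
    exact ⟨n, z, getElem?_of_le hq h1, h2⟩
  · obtain ⟨y, hy, hy'⟩ := nonempty_of_mem (hU.inter p.mem (hU.fine Δ))
    obtain ⟨q, hq, h1, -⟩ := ext_one hU hL p hy p.A p.mem le_rfl
    refine ⟨q, hq, p.stem.length, y, ?_, hy'⟩
    rw [h1, List.getElem?_append_right le_rfl]
    simp

include hU hL hG hc hne in
/-- the incompatibility lemma -/
theorem incompatible {F₁ F₂ : L → L → L} {A : Set (PK κ L)} {Δ : L}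
    (hA : ∀ z ∈ A, Typ kp c E F₁ F₂ z ∧ ∀ γ ∈ z.1, Δ ≤ γ → Δ ∈ z.1)
    (hcl : ∀ x : PK κ L, x.1 ⊆ Set.Iio Δ → E x < Δ)
    (hdet : ∀ z w : PK κ L, Typ kp c E F₁ F₂ z → Typ kp c E F₁ F₂ w → kp z = kp w → Δ ∈ z.1 →
      Δ ∈ w.1 → ∀ β < Δ, β ∈ z.1 → β ∈ w.1)
    {p q : Cond κ U} (hp : Inv A p) (hq : Inv A q) {x₀ y₀ : PK κ L} (hxy : x₀ ≠ y₀)
    (hx₀ : p.stem[0]? = some x₀) (hy₀ : q.stem[0]? = some y₀) (h0 : Δ ∉ x₀.1)
    (h : InQ (PairAlg (RR (U := U) kp c e E)) p q) : False := by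
  have hB := pairAlg_complete (genPair (U := U) hU hL hG hc)
  obtain ⟨p₁, hp₁, n₁, z₁, hz₁, hΔ₁⟩ := (denseOpen_mem (U := U) hU hL Δ).2 p
  obtain ⟨p₂, hp₂, q₂, hq₂, ⟨n₂, z₂, hz₂, hΔ₂⟩, h₂⟩ := (h.mono hp₁).exists_dense hB
    (denseOpen_mem hU hL Δ)
  set m := max n₁ n₂ with hm
  obtain ⟨p₃, hp₃, hl₃⟩ := (denseOpen_length (U := U) hU hL (m + 1)).2 p₂
  obtain ⟨p₄, hp₄, q₄, hq₄, hl₄, h₄⟩ := (h₂.mono hp₃).exists_dense hB
    (denseOpen_length hU hL (m + 1))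
  have hlp : m + 1 ≤ p₄.stem.length := hl₃.trans (length_le_of_le hp₄)
  have hlq : m + 1 ≤ q₄.stem.length := hl₄
  have hp' : p₄ ≤ p := ((hp₄.trans hp₃).trans hp₂).trans hp₁
  have hq' : q₄ ≤ q := hq₄.trans hq₂
  let d : PK κ L := x₀
  have hgx : ∀ n ≤ m, p₄.stem[n]? = some ((p₄.stem[n]?).getD d) := by
    intro n hn
    rw [List.getElem?_eq_getElem (by omega)]
    rfl
  have hgy : ∀ n ≤ m, q₄.stem[n]? = some ((q₄.stem[n]?).getD d) := by
    intro n hn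
    rw [List.getElem?_eq_getElem (by omega)]
    rfl
  have hmx := matched_of_inQ hU hL hG hc hne h₄
  have hAx : ∀ n ≤ m, (p₄.stem[n]?).getD d ∈ A := fun n hn =>
    (hp.mono hp').1 _ (List.mem_of_getElem? (hgx n hn))
  have hAy : ∀ n ≤ m, (q₄.stem[n]?).getD d ∈ A := fun n hn =>
    (hq.mono hq').1 _ (List.mem_of_getElem? (hgy n hn))
  have hx0 : (p₄.stem[0]?).getD d = x₀ := by rw [getElem?_of_le hp' hx₀]; rfl
  have hy0 : (q₄.stem[0]?).getD d = y₀ := by rw [getElem?_of_le hq' hy₀]; rfl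
  refine no_interleaving (m := m) (xs := fun n => (p₄.stem[n]?).getD d)
    (ys := fun n => (q₄.stem[n]?).getD d) (Δ := Δ) hG.2.1 (fun n hn => (hA _ (hAx n hn)).1)
    (fun n hn => (hA _ (hAy n hn)).1)
    (fun n hn => chain_get p₄.chain (hgx n (by omega)) (hgx (n + 1) (by omega)))
    (fun n hn => chain_get q₄.chain (hgy n (by omega)) (hgy (n + 1) (by omega)))
    (fun n hn => (hmx n).1 _ _ (hgx n hn) (hgy n hn))
    (fun n hn => (hmx n).2 _ _ _ _ (hgx n (by omega)) (hgx (n + 1) (by omega))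
      (hgy n (by omega)) (hgy (n + 1) (by omega)))
    ?_ (fun n hn => (hA _ (hAx n hn)).2) (fun n hn => (hA _ (hAy n hn)).2) hcl hdet ?_ ?_ ?_
  · simp only [hx0, hy0]
    exact hxy
  · simp only [hx0]
    exact h0
  · exact mem_get p₄.chain (getElem?_of_le ((hp₄.trans hp₃).trans hp₂) hz₁) hΔ₁ m _
      (le_max_left _ _) (hgx m le_rfl)
  · exact mem_get q₄.chain (getElem?_of_le hq₄ hz₂) hΔ₂ m _ (le_max_right _ _) (hgy m le_rfl)

end Pool.Agent.W872.SP
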