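import Pool.Agent.W872.SP.Defs

/-!
# Basic properties of fine normal measures
-/

set_option linter.unusedSectionVars false
set_option linter.unusedVariables false

namespace Pool.Agent.W872.SP

open Cardinal Ordinal

variable {κ : Cardinal.{0}} {L : Type} [LinearOrder L] [WellFoundedLT L]
variable {U : Ultrafilter (PK κ L)}

theorem FineNormal.inter (hU : FineNormal κ U) {A B : Set (PK κ L)} (hA : A ∈ U) (hB : B ∈ U) :
    A ∩ B ∈ U := Filter.inter_mem hA hB

theorem nonempty_of_mem {A : Set (PK κ L)} (hA : A ∈ U) : A.Nonempty :=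
  Ultrafilter.nonempty_of_mem hA

theorem not_mem_compl {A : Set (PK κ L)} (hA : A ∉ U) : Aᶜ ∈ U :=
  Ultrafilter.compl_mem_iff_notMem.2 hA

/-- regressive functions are constant -/
theorem FineNormal.const (hU : FineNormal κ U) (f : PK κ L → L) (hf : {x | f x ∈ x.1} ∈ U) :
    ∃ a, {x | f x = a} ∈ U := by
  by_contra hc
  push Not at hc
  have h1 : ∀ a, {x | f x ≠ a} ∈ U := fun a => by
    have := not_mem_compl (hc a)
    exact this
  have h2 := hU.normal (fun a => {x | f x ≠ a}) h1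
  obtain ⟨x, h3, h4⟩ := nonempty_of_mem (hU.inter hf h2)
  exact h4 _ h3 rfl

theorem FineNormal.subset (hU : FineNormal κ U) (s : Set L) (hs : #s < κ) :
    {x : PK κ L | s ⊆ x.1} ∈ U := by
  have h := hU.complete s (fun a => {x | a.1 ∈ x.1}) hs fun a => hU.fine a.1
  refine Filter.mem_of_superset h ?_
  intro x hx a ha
  exact Set.mem_iInter.1 hx ⟨a, ha⟩

/-- closure under binary functions -/
theorem FineNormal.closed₂ (hU : FineNormal κ U) (g : L → L → L) :
    {x : PK κ L | ∀ a ∈ x.1, ∀ b ∈ x.1, g a b ∈ x.1} ∈ U := by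
  refine hU.normal (fun a => {x | ∀ b ∈ x.1, g a b ∈ x.1}) fun a => ?_
  exact hU.normal (fun b => {x | g a b ∈ x.1}) fun b => hU.fine _

/-- the initial segment `κ` -/
def inK (κ : Cardinal.{0}) (a : L) : Prop := typein (α := L) (· < ·) a < κ.ord

theorem inK_of_le {a b : L} (h : inK κ a) (hb : b ≤ a) : inK κ b :=
  lt_of_le_of_lt (by
    rcases hb.eq_or_lt with rfl | h
    · exact le_rfl
    · exact ((typein_lt_typein (· < ·)).2 h).le) h

theorem mk_Iio_lt {a : L} (h : inK κ a) : #(Set.Iio a) < κ := by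
  have h1 : card (typein (α := L) (· < ·) a) = #(Set.Iio a) := card_typein _
  rw [← h1]
  exact (lt_ord).1 h

/-- the set `κ` has cardinality at least `κ` -/
theorem mk_inK (hL : κ.ord ≤ typeLT L) : κ ≤ #{a : L | inK κ a} := by
  rcases hL.eq_or_lt with h | h
  · have h1 : {a : L | inK κ a} = Set.univ := by
      ext a
      simp only [Set.mem_univ, iff_true]
      show typein _ _ < _
      rw [h]
      exact typein_lt_type _ a
    rw [h1, mk_univ, ← card_type (α := L) (· < ·), ← h, card_ord]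
  · have h1 : {a : L | inK κ a} = Set.Iio (enum (α := L) (· < ·) ⟨κ.ord, h⟩) := by
      ext a
      show typein _ _ < _ ↔ a < _
      rw [← typein_lt_typein (α := L) (· < ·), typein_enum]
    have h2 : card (typein (α := L) (· < ·) (enum (α := L) (· < ·) ⟨κ.ord, h⟩)) =
      #(Set.Iio (enum (α := L) (· < ·) ⟨κ.ord, h⟩)) := card_typein _
    rw [h1, ← h2, typein_enum, card_ord]

/-- almost every `x` meets `κ` in an ordinal -/
theorem FineNormal.kap (hU : FineNormal κ U) (hL : κ.ord ≤ typeLT L) :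
    {x : PK κ L | ∃ μ, Kap κ x.1 μ} ∈ U := by
  have h1 : {x : PK κ L | ∀ a ∈ x.1, x ∈ {x : PK κ L | inK κ a → Set.Iio a ⊆ x.1}} ∈ U := by
    refine hU.normal _ fun a => ?_
    by_cases h : inK κ a
    · exact Filter.mem_of_superset (hU.subset _ (mk_Iio_lt h)) fun x hx _ => hx
    · exact Filter.mem_of_superset Filter.univ_mem fun x _ h' => absurd h' h
  refine Filter.mem_of_superset h1 fun x hx => ?_
  have h2 : ∃ a, inK κ a ∧ a ∉ x.1 := by
    by_contra hc
    push Not at hc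
    exact absurd (mk_le_mk_of_subset (s := {a | inK κ a}) hc) (not_le_of_gt
      (lt_of_lt_of_le x.2 (mk_inK hL)))
  obtain ⟨a, ha, hmin⟩ := WellFounded.has_min (wellFounded_lt (α := L)) {a | inK κ a ∧ a ∉ x.1} h2
  refine ⟨a, ha.1, fun b hb => ⟨fun hbx => ?_, fun hba => ?_⟩⟩
  · by_contra hc
    rcases (not_lt.1 hc).eq_or_lt with rfl | h
    · exact ha.2 hbx
    · exact ha.2 (hx b hbx hb h)
  · by_contra hc
    exact hmin b ⟨hb, hc⟩ hba

theorem Kap.unique {x : Set L} {μ ν : L} (h : Kap κ x μ) (h' : Kap κ x ν) : μ = ν := by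
  rcases lt_trichotomy μ ν with h1 | h1 | h1
  · exact absurd ((h.2 μ h.1).1 ((h'.2 μ h.1).2 h1)) (lt_irrefl _)
  · exact h1
  · exact absurd ((h'.2 ν h'.1).1 ((h.2 ν h'.1).2 h1)) (lt_irrefl _)

/-- the ordinal `otp(x)` as an element of `L` -/
theorem exists_otp (hL : κ.ord ≤ typeLT L) (x : PK κ L) :
    ∃ θ : L, inK κ θ ∧ typein (α := L) (· < ·) θ = typeLT x.1 := by
  have h1 : typeLT x.1 < κ.ord := by
    rw [lt_ord, card_type]
    exact x.2
  refine ⟨enum (α := L) (· < ·) ⟨typeLT x.1, lt_of_lt_of_le h1 hL⟩, ?_, typein_enum _ _⟩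
  show typein _ _ < _
  rw [typein_enum]
  exact h1

theorem FineNormal.prec (hU : FineNormal κ U) (hL : κ.ord ≤ typeLT L) (x : PK κ L) :
    {y | Prec κ x y} ∈ U := by
  obtain ⟨θ, h1, h2⟩ := exists_otp hL x
  refine Filter.mem_of_superset (hU.inter (hU.inter (hU.kap hL) (hU.subset _ x.2)) (hU.fine θ)) ?_
  rintro y ⟨⟨⟨μ, hμ⟩, h3⟩, h4⟩
  refine ⟨h3, μ, hμ, ?_⟩
  rw [← h2, typein_lt_typein]
  exact (hμ.2 θ h1).1 h4

theorem Prec.trans {x y z : PK κ L} (h : Prec κ x y) (h' : Prec κ y z) : Prec κ x z := by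
  obtain ⟨h1, μ, h2, h3⟩ := h
  obtain ⟨h4, ν, h5, h6⟩ := h'
  refine ⟨h1.trans h4, ν, h5, ?_⟩
  refine lt_of_le_of_lt ?_ h6
  exact type_le_iff'.2 ⟨⟨Set.embeddingOfSubset _ _ h1, Iff.rfl⟩⟩

/-- diagonal intersections indexed by `P_κ(L)` -/
theorem FineNormal.diag (hU : FineNormal κ U) (hL : κ.ord ≤ typeLT L)
    (A : PK κ L → Set (PK κ L)) (hA : ∀ x, A x ∈ U) : {y | ∀ x, Prec κ x y → y ∈ A x} ∈ U := by
  classical
  by_contra hc
  have hZ := not_mem_compl hc
  have h0 : ∀ y : PK κ L, ∃ x : PK κ L, ∃ θ : L, (inK κ θ ∧ typein (α := L) (· < ·) θ = typeLT x.1) ∧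
      (¬ (∀ x, Prec κ x y → y ∈ A x) → Prec κ x y ∧ y ∉ A x) := by
    intro y
    by_cases h : ∀ x, Prec κ x y → y ∈ A x
    · obtain ⟨θ, h1⟩ := exists_otp hL y
      exact ⟨y, θ, h1, fun h' => absurd h h'⟩
    · push Not at h
      obtain ⟨x, h1, h2⟩ := h
      obtain ⟨θ, h3⟩ := exists_otp hL x
      exact ⟨x, θ, h3, fun _ => ⟨h1, h2⟩⟩
  choose X θ hθ hX using h0
  -- `θ` is constant
  obtain ⟨θ₀, hθ₀⟩ := hU.const θ (by
    refine Filter.mem_of_superset hZ fun y hy => ?_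
    obtain ⟨⟨h1, μ, hμ, h2⟩, h3⟩ := hX y hy
    refine (hμ.2 _ (hθ y).1).2 ?_
    rwa [← (hθ y).2, typein_lt_typein] at h2)
  have hK : #(Set.Iio θ₀) < κ := by
    obtain ⟨y, hy⟩ := nonempty_of_mem hθ₀
    have h1 : inK κ (θ y) := (hθ y).1
    rw [show θ y = θ₀ from hy] at h1
    exact mk_Iio_lt h1
  have h1 : ∀ y : PK κ L, ∃ g : Set.Iio θ₀ → L, θ y = θ₀ → (X y).1 = Set.range g := by
    intro y
    by_cases h : θ y = θ₀
    · have h2 := (hθ y).2
      rw [h] at h2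
      have h3 : typeLT (Set.Iio θ₀) = typeLT (X y).1 := by
        rw [← h2]
        exact type_Iio_lt θ₀
      obtain ⟨g⟩ := type_eq.1 h3
      refine ⟨fun i => (g i).1, fun _ => ?_⟩
      ext a
      constructor
      · intro ha
        exact ⟨g.symm ⟨a, ha⟩, by simp⟩
      · rintro ⟨i, rfl⟩
        exact (g i).2
    · exact ⟨fun i => i.1, fun h' => absurd h' h⟩
  choose g hg using h1
  have h2 : ∀ i : Set.Iio θ₀, ∃ a, {y | g y i = a} ∈ U := by
    intro i
    refine hU.const (fun y => g y i) ?_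
    refine Filter.mem_of_superset (hU.inter hZ hθ₀) ?_
    rintro y ⟨hy, hy'⟩
    refine (hX y hy).1.1 ?_
    rw [hg y hy']
    exact ⟨i, rfl⟩
  choose a ha using h2
  have h3 := hU.complete _ (fun i => {y | g y i = a i}) hK ha
  obtain ⟨y₀, ⟨h4, h5⟩, h6⟩ := nonempty_of_mem (hU.inter (hU.inter h3 hθ₀) hZ)
  obtain ⟨y, ⟨⟨h7, h8⟩, h9⟩, h10⟩ := nonempty_of_mem
    (hU.inter (hU.inter (hU.inter h3 hθ₀) hZ) (hA (X y₀)))
  have h11 : X y = X y₀ := by
    apply Subtype.ext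
    rw [hg y h8, hg y₀ h5]
    congr 1
    ext i
    rw [show g y i = a i from Set.mem_iInter.1 h7 i, show g y₀ i = a i from Set.mem_iInter.1 h4 i]
  apply (hX y h9).2
  rw [h11]
  exact h10

/-- closure under functions on `P_κ(L)` -/
theorem FineNormal.closedPK (hU : FineNormal κ U) (hL : κ.ord ≤ typeLT L) (g : PK κ L → L) :
    {y : PK κ L | ∀ x, Prec κ x y → g x ∈ y.1} ∈ U :=
  hU.diag hL (fun x => {y | g x ∈ y.1}) fun x => hU.fine _

/-- sets in `U` are large -/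
theorem FineNormal.large (hU : FineNormal κ U) (h : κ < #L) {B : Set (PK κ L)} (hB : B ∈ U) :
    #L ≤ #B := by
  by_contra hc
  push Not at hc
  have h1 : #(⋃ x ∈ B, (x : PK κ L).1 : Set L) < #L := by
    refine lt_of_le_of_lt (mk_biUnion_le _ _) ?_
    have hinf : ℵ₀ ≤ #L := hU.unc.le.trans h.le
    refine mul_lt_of_lt hinf hc ?_
    refine lt_of_le_of_lt (ciSup_le' fun x => x.1.2.le) h
  have h2 : ∃ a : L, a ∉ (⋃ x ∈ B, (x : PK κ L).1 : Set L) := by
    by_contra h3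
    push Not at h3
    have h4 : (⋃ x ∈ B, (x : PK κ L).1 : Set L) = Set.univ := Set.eq_univ_of_forall h3
    rw [h4, mk_univ] at h1
    exact lt_irrefl _ h1
  obtain ⟨a, ha⟩ := h2
  obtain ⟨x, hx, hx'⟩ := nonempty_of_mem (hU.inter hB (hU.fine a))
  exact ha (Set.mem_biUnion hx hx')

end Pool.Agent.W872.SP
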