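import Pool.Agent.W872.SP.Names

/-!
# Regularity of `κ` and closure points
-/

set_option linter.unusedSectionVars false
set_option linter.unusedVariables false

namespace Pool.Agent.W872.SP

open Cardinal Ordinal

variable {κ μ : Cardinal.{0}} {L : Type} [LinearOrder L] [WellFoundedLT L]
variable {U : Ultrafilter (PK κ L)}

theorem FineNormal.isRegular (hU : FineNormal κ U) (hL : κ.ord < typeLT L) : κ.IsRegular := by
  refine ⟨hU.unc.le, ?_⟩
  by_contra hc
  push Not at hc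
  set k₀ : L := enum (α := L) (· < ·) ⟨κ.ord, hL⟩ with hk₀
  have h1 : typein (α := L) (· < ·) k₀ = κ.ord := typein_enum _ _
  have h2 : Order.cof (Set.Iio k₀) = κ.ord.cof := by
    rw [← cof_type, show typeLT (Set.Iio k₀) = κ.ord from h1 ▸ type_Iio_lt k₀]
  obtain ⟨s, hs, hs'⟩ := Order.exists_cof_eq (Set.Iio k₀)
  have h3 : #(Subtype.val '' s : Set L) < κ := by
    refine lt_of_le_of_lt mk_image_le ?_
    rw [hs', h2]
    exact hc
  obtain ⟨x, ⟨ν, hν⟩, h5⟩ := nonempty_of_mem (hU.inter (hU.kap hL.le) (hU.subset _ h3))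
  have h6 : ν < k₀ := by
    rw [← typein_lt_typein (α := L) (· < ·), h1]
    exact hν.1
  obtain ⟨b, hb, hb'⟩ := hs ⟨ν, h6⟩
  have h7 : b.1 ∈ x.1 := h5 ⟨b, hb, rfl⟩
  have h8 : inK κ b.1 := by
    have : b.1 < k₀ := b.2
    rw [← typein_lt_typein (α := L) (· < ·), h1] at this
    exact this
  exact absurd ((hν.2 b.1 h8).1 h7) (not_lt_of_ge hb')

theorem exists_spaced' {W : Type} [LinearOrder W] [WellFoundedLT W]
    (h : ∀ ξ : W, #(Set.Iio ξ) < Order.cof L) (d : L) (g : L → L) :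
    ∃ α : W → L, ∀ ξ ξ', ξ' < ξ → g (α ξ') < α ξ := by
  classical
  let F : ∀ ξ : W, (∀ ξ', ξ' < ξ → L) → L := fun ξ ih =>
    if h : ∃ a, ∀ ξ' (hξ' : ξ' < ξ), g (ih ξ' hξ') < a then Classical.choose h else d
  let α : W → L := (wellFounded_lt (α := W)).fix F
  have hα : ∀ ξ, α ξ = F ξ (fun ξ' _ => α ξ') := fun ξ => WellFounded.fix_eq _ F ξ
  refine ⟨α, fun ξ ξ' hlt => ?_⟩
  have h1 : ∃ a, ∀ ξ' (hξ' : ξ' < ξ), g (α ξ') < a := by
    obtain ⟨a, ha⟩ := bounded_range (h ξ) fun ξ' : Set.Iio ξ => g (α ξ'.1)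
    exact ⟨a, fun ξ' hξ' => ha ⟨ξ', hξ'⟩⟩
  have h2 : α ξ = Classical.choose h1 := by
    rw [hα ξ]
    exact dif_pos h1
  rw [h2]
  exact Classical.choose_spec h1 ξ' hlt

theorem noMax_of_isRegular {θ : Cardinal.{0}} (h : θ.IsRegular) : NoMaxOrder θ.ord.ToType := by
  have h1 : Order.IsSuccLimit θ.ord := isSuccLimit_ord h.aleph0_le
  constructor
  intro a
  by_contra hc
  push Not at hc
  have h2 : Order.cof θ.ord.ToType ≤ #({a} : Set θ.ord.ToType) :=
    Order.cof_le (s := {a}) fun b => ⟨a, rfl, hc b⟩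
  rw [mk_singleton, cof_toType, h.cof_ord] at h2
  exact absurd (h2.trans_lt (one_lt_aleph0)) (not_lt_of_ge h.aleph0_le)

/-- closure points of a function from `P_κ(L)` to `L` -/
theorem exists_closure (hκ : κ.IsRegular) (hκL : κ < Order.cof L)
    (hsmall : ∀ δ : L, #{x : PK κ L // x.1 ⊆ Set.Iio δ} < Order.cof L) (E : PK κ L → L) (δ₀ : L) :
    ∃ Δ ≥ δ₀, ∀ x : PK κ L, x.1 ⊆ Set.Iio Δ → E x < Δ := by
  classical
  have h1 : ∀ δ : L, ∃ a, ∀ x : PK κ L, x.1 ⊆ Set.Iio δ → E x < a := by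
    intro δ
    obtain ⟨a, ha⟩ := bounded_range (hsmall δ) fun x => E x.1
    exact ⟨a, fun x hx => ha ⟨x, hx⟩⟩
  choose h hh using h1
  have hNM := noMax_of_isRegular hκ
  have hcofW : Order.cof κ.ord.ToType = κ := by rw [cof_toType, hκ.cof_ord]
  have hIio : ∀ ξ : κ.ord.ToType, #(Set.Iio ξ) < κ := fun ξ => by
    have := Cardinal.mk_Iio_lt ξ (typeLT_toType κ)
    rwa [mk_toType] at this
  obtain ⟨α, hα⟩ := exists_spaced' (W := κ.ord.ToType) (L := L) (fun ξ => (hIio ξ).trans hκL) δ₀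
    fun δ => max (h δ) (max δ δ₀)
  have h2 : ∃ a, ∀ i, α i < a := bounded_range (by rw [mk_toType]; exact hκL) α
  obtain ⟨Δ, hΔ, hmin⟩ := WellFounded.has_min (wellFounded_lt (α := L)) {a | ∀ i, α i < a} h2
  have hne : Nonempty κ.ord.ToType := by
    rw [← mk_ne_zero_iff, mk_toType]
    exact hκ.ne_zero
  refine ⟨Δ, ?_, fun x hx => ?_⟩
  · obtain ⟨i⟩ := hne
    obtain ⟨j, hj⟩ := exists_gt i
    exact ((le_max_right _ _).trans (le_max_right _ _)).trans ((hα j i hj).le.trans (hΔ j).le)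
  · have h3 : ∀ β : x.1, ∃ i, β.1 ≤ α i := by
      intro β
      by_contra hc
      push Not at hc
      exact hmin β.1 hc (hx β.2)
    choose i hi using h3
    obtain ⟨j, hj⟩ := bounded_range (ι := κ.ord.ToType) (by rw [hcofW]; exact x.2) i
    obtain ⟨k, hk⟩ := exists_gt j
    have h4 : x.1 ⊆ Set.Iio (α j) := by
      intro β hβ
      refine (hi ⟨β, hβ⟩).trans_lt (lt_of_le_of_lt ?_ (hα j _ (hj ⟨β, hβ⟩)))
      exact (le_max_left _ _).trans (le_max_right _ _)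
    exact (hh _ x h4).trans (((le_max_left _ _).trans_lt (hα k j hk)).trans (hΔ k))

end Pool.Agent.W872.SP
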