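import Pool.Agent.W872.SP.Anti
import Pool.Agent.W872.SP.Closure

/-!
# The concrete coding functions
-/

set_option linter.unusedSectionVars false
set_option linter.unusedVariables false

namespace Pool.Agent.W872.SP

open Cardinal Ordinal

variable {κ μ : Cardinal.{0}} {L : Type} [LinearOrder L] [WellFoundedLT L]
variable {U : Ultrafilter (PK κ L)}

/-- the coding function -/
def cc (κ : Cardinal.{0}) {m : L} (X : L → Set (Set.Iio m)) (σ : L) (ν : QQ κ m) :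
    QQ κ m × QQ κ m :=
  (ν, ⟨{b | b ∈ ν.1 ∧ b ∈ X σ}, lt_of_le_of_lt (mk_le_mk_of_subset fun _ hb => hb.1) ν.2⟩)

theorem cc_det {m : L} (X : L → Set (Set.Iio m)) (σ τ : L) (ν ν' : QQ κ m)
    (h : cc κ X σ ν = cc κ X τ ν') : ν = ν' := congrArg Prod.fst h

theorem cc_ne (hU : FineNormal κ U) {m : L} {X : L → Set (Set.Iio m)}
    (hX : Function.Injective X) :
    {z : PK κ L | ∀ σ ∈ z.1, ∀ τ ∈ z.1, σ ≠ τ → cc κ X σ (kpm m z) ≠ cc κ X τ (kpm m z)} ∈ U := by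
  classical
  have h1 : ∀ σ τ : L, ∃ b : L, σ ≠ τ → ∃ h : b < m, ¬ ((⟨b, h⟩ : Set.Iio m) ∈ X σ ↔ ⟨b, h⟩ ∈ X τ) := by
    intro σ τ
    by_cases h : σ = τ
    · exact ⟨σ, fun h' => absurd h h'⟩
    · have h2 : X σ ≠ X τ := fun h' => h (hX h')
      have h3 : ∃ b : Set.Iio m, ¬ (b ∈ X σ ↔ b ∈ X τ) := by
        by_contra hc
        push Not at hc
        exact h2 (Set.ext hc)
      obtain ⟨b, hb⟩ := h3
      exact ⟨b.1, fun _ => ⟨b.2, hb⟩⟩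
  choose d hd using h1
  refine Filter.mem_of_superset (hU.closed₂ d) ?_
  intro z hz σ hσ τ hτ hne heq
  obtain ⟨h, hb⟩ := hd σ τ hne
  have h2 : (⟨d σ τ, h⟩ : Set.Iio m) ∈ (kpm m z).1 := hz σ hσ τ hτ
  have h3 := congrArg (fun p => (Prod.snd p).1) heq
  simp only [cc] at h3
  apply hb
  have h4 := Set.ext_iff.1 h3 ⟨d σ τ, h⟩
  simp only [Set.mem_ofPred_eq, h2, true_and] at h4
  exact h4

theorem kpm_ne (hU : FineNormal κ U) {m : L} (hm : κ ≤ #(Set.Iio m)) (ν : QQ κ m) :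
    {x : PK κ L | kpm m x ≠ ν} ∈ U := by
  have h1 : ∃ b : Set.Iio m, b ∉ ν.1 := by
    by_contra hc
    push Not at hc
    have h2 : ν.1 = Set.univ := Set.eq_univ_of_forall hc
    have h3 := ν.2
    rw [h2, mk_univ] at h3
    exact absurd h3 (not_lt_of_ge hm)
  obtain ⟨b, hb⟩ := h1
  refine Filter.mem_of_superset (hU.fine b.1) ?_
  rintro x hx rfl
  exact hb hx

/-- traces on initial segments are determined by the trace on `m` -/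
theorem exists_F {m : L} (hL : ∀ Δ : L, #(Set.Iio Δ) ≤ #(Set.Iio m)) :
    ∃ F₁ F₂ : L → L → L, ∀ z w : PK κ L, (∀ a ∈ z.1, ∀ b ∈ z.1, F₁ a b ∈ z.1) →
      (∀ a ∈ w.1, ∀ b ∈ w.1, F₂ a b ∈ w.1) → kpm m z = kpm m w → ∀ Δ, Δ ∈ z.1 → Δ ∈ w.1 →
        ∀ β < Δ, β ∈ z.1 → β ∈ w.1 := by
  classical
  have h1 : ∀ Δ : L, ∃ g : Set.Iio Δ → Set.Iio m, Function.Injective g := fun Δ => by
    obtain ⟨g⟩ := hL Δ
    exact ⟨g, g.injective⟩
  choose g hg using h1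
  refine ⟨fun Δ β => if h : β < Δ then (g Δ ⟨β, h⟩).1 else β, fun Δ γ =>
    if h : ∃ β : Set.Iio Δ, (g Δ β).1 = γ then (Classical.choose h).1 else γ, ?_⟩
  intro z w hz hw hk Δ hΔz hΔw β hβ hβz
  have h2 := hz Δ hΔz β hβz
  simp only [hβ, dite_true] at h2
  have h3 : g Δ ⟨β, hβ⟩ ∈ (kpm m w).1 := by
    rw [← hk]
    exact h2
  have h4 := hw Δ hΔw _ h3
  have h5 : ∃ β' : Set.Iio Δ, (g Δ β').1 = (g Δ ⟨β, hβ⟩).1 := ⟨_, rfl⟩
  simp only [h5, dite_true] at h4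
  have h6 := Classical.choose_spec h5
  rw [hg Δ (Subtype.ext h6)] at h4
  exact h4

/-- the code of `b ∩ γ` -/
def cod (cd : (Σ δ : L, Set (Set.Iio δ)) → L) (b : Set L) (γ : L) : L := cd ⟨γ, {β | β.1 ∈ b}⟩

theorem cod_inj {cd : (Σ δ : L, Set (Set.Iio δ)) → L} (hcd : Function.Injective cd)
    {b b' : Set L} {γ γ' : L} (h : cod cd b γ = cod cd b' γ') :
    γ = γ' ∧ ∀ β < γ, (β ∈ b ↔ β ∈ b') := by
  have h1 := hcd h
  have key : ∀ (γ γ' : L) (b b' : Set L), (⟨γ, {β | β.1 ∈ b}⟩ : Σ δ : L, Set (Set.Iio δ)) =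
      ⟨γ', {β | β.1 ∈ b'}⟩ → γ = γ' ∧ ∀ β < γ, (β ∈ b ↔ β ∈ b') := by
    intro γ γ' b b' h
    obtain ⟨rfl, h⟩ := Sigma.mk.inj_iff.1 h
    refine ⟨rfl, fun β hβ => ?_⟩
    exact Set.ext_iff.1 (eq_of_heq h) ⟨β, hβ⟩
  exact key _ _ _ _ h1

/-- almost every `z` recovers splitting points -/
theorem cod_split (hU : FineNormal κ U) {cd : (Σ δ : L, Set (Set.Iio δ)) → L}
    (hcd : Function.Injective cd) :
    {z : PK κ L | ∀ (b b' : Set L) (Δ γ : L), Δ < γ → (∀ β < Δ, (β ∈ b ↔ β ∈ b')) →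
      ¬ (Δ ∈ b ↔ Δ ∈ b') → cod cd b γ ∈ z.1 → cod cd b' γ ∈ z.1 → Δ ∈ z.1} ∈ U := by
  classical
  let D : L → L → L → Prop := fun i i' Δ => ∃ (b b' : Set L) (γ : L), Δ < γ ∧
    (∀ β < Δ, (β ∈ b ↔ β ∈ b')) ∧ ¬ (Δ ∈ b ↔ Δ ∈ b') ∧ cod cd b γ = i ∧ cod cd b' γ = i'
  have hD : ∀ i i' Δ Δ', D i i' Δ → D i i' Δ' → Δ = Δ' := by
    have key : ∀ i i' Δ Δ', Δ < Δ' → D i i' Δ → D i i' Δ' → False := by
      rintro i i' Δ Δ' hlt ⟨b, b', γ, h1, h2, h3, h4, h5⟩ ⟨a, a', γ', h1', h2', h3', h4', h5'⟩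
      obtain ⟨h6, h7⟩ := cod_inj hcd (h4.trans h4'.symm)
      obtain ⟨-, h8⟩ := cod_inj hcd (h5.trans h5'.symm)
      apply h3
      rw [h7 Δ h1, h8 Δ h1]
      exact h2' Δ hlt
    intro i i' Δ Δ' h h'
    rcases lt_trichotomy Δ Δ' with h1 | h1 | h1
    · exact (key i i' Δ Δ' h1 h h').elim
    · exact h1
    · exact (key i i' Δ' Δ h1 h' h).elim
  refine Filter.mem_of_superset
    (hU.closed₂ fun i i' => if h : ∃ Δ, D i i' Δ then Classical.choose h else i) ?_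
  intro z hz b b' Δ γ h1 h2 h3 h4 h5
  have h6 : D (cod cd b γ) (cod cd b' γ) Δ := ⟨b, b', γ, h1, h2, h3, rfl, rfl⟩
  have h7 : ∃ Δ, D (cod cd b γ) (cod cd b' γ) Δ := ⟨Δ, h6⟩
  have h8 := hz _ h4 _ h5
  simp only [h7, dite_true] at h8
  rwa [hD _ _ _ _ h6 (Classical.choose_spec h7)]

end Pool.Agent.W872.SP
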