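import Mathlib

/-!
# Supercompact Prikry forcing and its quotients : definitions
-/

namespace Pool.Agent.W872.SP

open Cardinal Ordinal

/-- `P_κ(L)`, the set of subsets of `L` of cardinality less than `κ`. -/
abbrev PK (κ : Cardinal.{0}) (L : Type) : Type := {x : Set L // #x < κ}

section prikry

variable (κ : Cardinal.{0}) {L : Type} [LinearOrder L] [WellFoundedLT L]

/-- `L` is a well-ordered set; an element `a` of `L` is identified with the ordinal
`typein (· < ·) a`, and `κ` with the set of the `a` whose ordinal is less than `κ`.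
`Kap κ x μ` says that `μ ∈ κ` and `x ∩ κ = μ`. -/
def Kap (x : Set L) (μ : L) : Prop :=
  typein (α := L) (· < ·) μ < κ.ord ∧ ∀ a : L, typein (α := L) (· < ·) a < κ.ord → (a ∈ x ↔ a < μ)

/-- `x ≺ y` : `x ⊆ y` and `otp(x) < y ∩ κ`. -/
def Prec (x y : PK κ L) : Prop :=
  x.1 ⊆ y.1 ∧ ∃ μ : L, Kap κ y.1 μ ∧ typeLT x.1 < typein (α := L) (· < ·) μ

/-- `U` is a fine normal measure on `P_κ(L)`. -/
structure FineNormal (U : Ultrafilter (PK κ L)) : Prop where
  unc : ℵ₀ < κ
  complete : ∀ (ι : Type) (A : ι → Set (PK κ L)), #ι < κ → (∀ i, A i ∈ U) → (⋂ i, A i) ∈ U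
  fine : ∀ a : L, {x : PK κ L | a ∈ x.1} ∈ U
  normal : ∀ A : L → Set (PK κ L), (∀ a, A a ∈ U) → {x : PK κ L | ∀ a ∈ x.1, x ∈ A a} ∈ U

/-- Conditions `⟨x₁, …, xₙ, A⟩` of the supercompact Prikry forcing. -/
structure Cond (U : Ultrafilter (PK κ L)) : Type where
  stem : List (PK κ L)
  A : Set (PK κ L)
  chain : stem.IsChain (Prec κ)
  mem : A ∈ U
  above : ∀ x ∈ stem.getLast?, ∀ y ∈ A, Prec κ x y

variable {κ}

/-- `⟨y₁, …, yₘ, B⟩` extends `⟨x₁, …, xₙ, A⟩`. -/
instance (U : Ultrafilter (PK κ L)) : Preorder (Cond κ U) where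
  le q p := ∃ r : List (PK κ L), q.stem = p.stem ++ r ∧ (∀ y ∈ r, y ∈ p.A) ∧ q.A ⊆ p.A
  le_refl p := ⟨[], by simp, by simp, le_rfl⟩
  le_trans := by
    rintro a b c ⟨r, h1, h2, h3⟩ ⟨s, h4, h5, h6⟩
    refine ⟨s ++ r, by rw [h1, h4, List.append_assoc], ?_, h3.trans h6⟩
    intro y hy
    rcases List.mem_append.1 hy with h | h
    · exact h5 y h
    · exact h6 (h2 y h)

end prikry

section forcing

variable {P : Type} [Preorder P]

/-- The complement in the algebra of regular open subsets of `P`. -/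
def Neg (b : Set P) : Set P := {p | ∀ q ≤ p, q ∉ b}

/-- Regular open subsets of `P`: the elements of the Boolean completion of `P`. -/
def RegOpen (b : Set P) : Prop := (∀ p ∈ b, ∀ q ≤ p, q ∈ b) ∧ Neg (Neg b) = b

/-- Complete subalgebras of the algebra of regular open subsets of `P`. -/
structure CompleteSubalgebra (B : Set (Set P)) : Prop where
  reg : ∀ b ∈ B, RegOpen b
  neg : ∀ b ∈ B, Neg b ∈ B
  inter : ∀ S ⊆ B, ⋂₀ S ∈ B

variable {F : Type} [Preorder F]

/-- `F` is a forcing notion which adds a filter `H` on the complete subalgebra `B`; `In f b` means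
that `f` forces `b ∈ H`.  `ForcesInQuot In B f q` says that `f` forces that `q` is in the quotient
`P/H`, that is, `q` is compatible with every element of `H`. -/
def ForcesInQuot (In : F → Set P → Prop) (B : Set (Set P)) (f : F) (q : P) : Prop :=
  ∀ g ≤ f, ∀ b ∈ B, In g b → ∃ r ≤ q, r ∈ b

/-- An `F`-name, below the condition `f`, for a function from `ι` to `X`; `dec i g x` means that `g`
decides that the value at `i` is `x`. -/
structure SeqName (f : F) (ι X : Type) where
  dec : ι → F → X → Prop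
  mono : ∀ i g g' x, dec i g x → g' ≤ g → dec i g' x
  uniq : ∀ i g x x', dec i g x → dec i g x' → x = x'
  total : ∀ i, ∀ g ≤ f, ∃ g' ≤ g, ∃ x, dec i g' x

/-- Some condition of `F` forces that the quotient `P/H` has an antichain of size `θ`
(given by a one-to-one enumeration in type `ι` with `ι` of cardinality `θ`). -/
def HasAntichain (In : F → Set P → Prop) (B : Set (Set P)) (θ : Cardinal.{0}) : Prop :=
  ∃ ι : Type, #ι = θ ∧ ∃ (f : F) (N : SeqName f ι P), ∀ i j, i ≠ j → ∀ g ≤ f, ∀ q q',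
    N.dec i g q → N.dec j g q' →
      ForcesInQuot In B g q ∧ ForcesInQuot In B g q' ∧
        ¬ ∃ h ≤ g, ∃ z, z ≤ q ∧ z ≤ q' ∧ ForcesInQuot In B h z

end forcing

end Pool.Agent.W872.SP
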