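import Pool.Agent.W872.SP.Basic

/-!
# The function `E` and the step lemma
-/

set_option linter.unusedSectionVars false
set_option linter.unusedVariables false

namespace Pool.Agent.W872.SP

open Cardinal Ordinal

/-- injective choice functions for families of large sets -/
theorem exists_inj_choice {I : Type} {L : Type} (T : I → Set L) (h : ∀ i, #I ≤ #(T i)) :
    ∃ E : I → L, Function.Injective E ∧ ∀ i, E i ∈ T i := by
  classical
  obtain ⟨r, hwo, hr⟩ := exists_ord_eq I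
  rcases isEmpty_or_nonempty I with hI | hI
  · exact ⟨fun i => (hI.false i).elim, fun i => (hI.false i).elim, fun i => (hI.false i).elim⟩
  have hne : Nonempty L := by
    obtain ⟨i⟩ := hI
    have h1 : #(T i) ≠ 0 := by
      have h2 : (#I : Cardinal) ≠ 0 := mk_ne_zero_iff.2 ⟨i⟩
      exact fun h3 => h2 (le_antisymm (h3 ▸ h i) zero_le)
    obtain ⟨y⟩ := mk_ne_zero_iff.1 h1
    exact ⟨y.1⟩
  have hwf : WellFounded r := hwo.wf
  let F : ∀ i, (∀ j, r j i → L) → L := fun i ih =>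
    if h : ∃ y ∈ T i, ∀ j hj, ih j hj ≠ y then Classical.choose h else Classical.choice hne
  let E : I → L := hwf.fix F
  have hE : ∀ i, E i = F i (fun j _ => E j) := fun i => hwf.fix_eq F i
  have key : ∀ i, E i ∈ T i ∧ ∀ j, r j i → E j ≠ E i := by
    intro i
    have h1 : ∃ y ∈ T i, ∀ j, r j i → E j ≠ y := by
      by_contra hc
      push Not at hc
      have h2 : T i ⊆ E '' {j | r j i} := fun y hy => by
        obtain ⟨j, hj, hj'⟩ := hc y hy
        exact ⟨j, hj, hj'⟩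
      have h3 : #(T i) ≤ #{j | r j i} := (mk_le_mk_of_subset h2).trans mk_image_le
      have h4 : #{j | r j i} < #I := card_typein_lt i hr
      exact absurd (h i) (not_le_of_gt (h3.trans_lt h4))
    have h2 : E i = Classical.choose h1 := by
      rw [hE i]
      exact dif_pos h1
    rw [h2]
    exact ⟨(Classical.choose_spec h1).1, (Classical.choose_spec h1).2⟩
  refine ⟨E, fun i j hij => ?_, fun i => (key i).1⟩
  rcases trichotomous_of r i j with h1 | h1 | h1
  · exact absurd hij ((key j).2 i h1)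
  · exact h1
  · exact absurd hij.symm ((key i).2 j h1)

variable {κ : Cardinal.{0}} {L : Type} [LinearOrder L] [WellFoundedLT L]
variable {U : Ultrafilter (PK κ L)}
variable {Q C : Type}

section defs

variable (U) (kp : PK κ L → Q) (c : L → Q → C)

/-- `c σ` is in `K` almost everywhere -/
def G (K : Set C) (σ : L) : Prop := {z | c σ (kp z) ∈ K} ∈ U

variable (e : PK κ L → L)

/-- `G K` is large with respect to the image of `U` under `e` -/
def Lg (K : Set C) : Prop := {z | G U kp c K (e z)} ∈ U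

variable (E : PK κ L → L)

def SS (y' : PK κ L) (B : Set (PK κ L)) : Set Q :=
  {ν | ∀ K, Lg U kp c e K → ∃ y ∈ B, Prec κ y' y ∧ kp y = ν ∧ G U kp c K (E y)}

def KK (y' : PK κ L) (ν : Q) (B B' : Set (PK κ L)) : Set C :=
  {a | ∃ y ∈ B, Prec κ y' y ∧ kp y = ν ∧ ∃ ν' ∈ SS U kp c e E y B', c (E y) ν' = a}

def Ready (y' x : PK κ L) (B B' : Set (PK κ L)) : Prop :=
  kp x ∈ SS U kp c e E y' B ∧ G U kp c (KK U kp c e E y' (kp x) B B') (E x)

end defs

variable {kp : PK κ L → Q} {c : L → Q → C} {e : PK κ L → L} {E : PK κ L → L}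

theorem G_compl {K : Set C} {σ : L} (h : ¬ G U kp c K σ) : G U kp c Kᶜ σ := not_mem_compl h

theorem Lg_compl {K : Set C} (h : ¬ Lg U kp c e K) : Lg U kp c e Kᶜ :=
  Filter.mem_of_superset (not_mem_compl h) fun _ hz => G_compl hz

theorem not_G_compl {K : Set C} {σ : L} (h : G U kp c K σ) (h' : G U kp c Kᶜ σ) : False := by
  obtain ⟨z, h1, h2⟩ := nonempty_of_mem (Filter.inter_mem h h')
  exact h2 h1

/-- the property of the pair `Φ`, `E` -/
def Good (U : Ultrafilter (PK κ L)) (kp : PK κ L → Q) (c : L → Q → C) (e : PK κ L → L)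
    (Φ : L → Q → Set C) (E : PK κ L → L) : Prop :=
  Function.Surjective Φ ∧ Function.Injective E ∧
    ∀ x : PK κ L, ∀ i ∈ x.1, Lg U kp c e (Φ i (kp x)) → G U kp c (Φ i (kp x)) (E x)

theorem exists_good (hU : FineNormal κ U) (he : Function.Injective e) (hκ : κ < #L)
    (hPK : #(PK κ L) ≤ #L) (hQ : #(Q → Set C) ≤ #L) (kp : PK κ L → Q) (c : L → Q → C) :
    ∃ Φ E, Good U kp c e Φ E := by
  classical
  obtain ⟨g, hg⟩ := hQ
  have hsurj : ∃ Φ : L → Q → Set C, Function.Surjective Φ := by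
    refine ⟨Function.invFun g, fun y => ⟨g y, Function.leftInverse_invFun hg y⟩⟩
  obtain ⟨Φ, hΦ⟩ := hsurj
  obtain ⟨E, hE, hE'⟩ := exists_inj_choice (I := PK κ L)
    (fun x => {σ : L | ∀ i ∈ x.1, Lg U kp c e (Φ i (kp x)) → G U kp c (Φ i (kp x)) σ}) (by
      intro x
      have h1 : (⋂ i : x.1, {z | Lg U kp c e (Φ i.1 (kp x)) → G U kp c (Φ i.1 (kp x)) (e z)}) ∈ U := by
        refine hU.complete _ _ x.2 fun i => ?_
        by_cases h : Lg U kp c e (Φ i.1 (kp x))
        · exact Filter.mem_of_superset h fun z hz _ => hz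
        · exact Filter.mem_of_superset Filter.univ_mem fun z _ h' => absurd h' h
      refine hPK.trans ((hU.large hκ h1).trans ?_)
      rw [← mk_image_eq (f := e) he]
      refine mk_le_mk_of_subset ?_
      rintro _ ⟨z, hz, rfl⟩ i hi hL
      exact Set.mem_iInter.1 hz ⟨i, hi⟩ hL)
  exact ⟨Φ, E, hΦ, hE, fun x => hE' x⟩

variable {Φ : L → Q → Set C}

theorem SS_large (hU : FineNormal κ U) (hL : κ.ord ≤ typeLT L) (hG : Good U kp c e Φ E)
    (y' : PK κ L) {B : Set (PK κ L)} (hB : B ∈ U) : {z | kp z ∈ SS U kp c e E y' B} ∈ U := by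
  classical
  by_contra hc
  have h1 := not_mem_compl hc
  have h2 : ∀ ν : Q, ∃ K : Set C, Lg U kp c e K ∧ (ν ∉ SS U kp c e E y' B →
      ∀ y ∈ B, Prec κ y' y → kp y = ν → ¬ G U kp c K (E y)) := by
    intro ν
    by_cases h : ν ∈ SS U kp c e E y' B
    · refine ⟨Set.univ, ?_, fun h' => absurd h h'⟩
      refine Filter.mem_of_superset Filter.univ_mem fun z _ => ?_
      exact Filter.mem_of_superset Filter.univ_mem fun z _ => trivial
    · have h' := h
      simp only [SS, Set.mem_ofPred_eq, not_forall] at h'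
      obtain ⟨K, hK, h3⟩ := h'
      push Not at h3
      exact ⟨K, hK, fun _ => h3⟩
  choose K hK hK' using h2
  obtain ⟨i, hi⟩ := hG.1 K
  obtain ⟨y, ⟨⟨h3, h4⟩, h5⟩, h6⟩ := nonempty_of_mem
    (hU.inter (hU.inter (hU.inter h1 (hU.fine i)) hB) (hU.prec hL y'))
  have h7 := hG.2.2 y i h4
  rw [hi] at h7
  exact hK' (kp y) h3 y h5 h6 rfl (h7 (hK _))

theorem KK_large (hU : FineNormal κ U) (hL : κ.ord ≤ typeLT L) (hG : Good U kp c e Φ E)
    {y' : PK κ L} {B B' : Set (PK κ L)} (hB' : B' ∈ U) {ν : Q} (hν : ν ∈ SS U kp c e E y' B) :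
    Lg U kp c e (KK U kp c e E y' ν B B') := by
  by_contra hc
  obtain ⟨y, hy, h1, h2, h3⟩ := hν _ (Lg_compl hc)
  refine not_G_compl (K := KK U kp c e E y' ν B B') (σ := E y) ?_ h3
  refine Filter.mem_of_superset (SS_large hU hL hG y hB') fun z hz => ?_
  exact ⟨y, hy, h1, h2, kp z, hz, rfl⟩

/-- the step lemma -/
theorem step (hU : FineNormal κ U) (hL : κ.ord ≤ typeLT L) (hG : Good U kp c e Φ E)
    (hc : ∀ σ τ ν ν', c σ ν = c τ ν' → ν = ν')
    {y' x : PK κ L} {B B' B'' : Set (PK κ L)} (hB' : B' ∈ U) (hB'' : B'' ∈ U)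
    (h : Ready U kp c e E y' x B B') {A : Set (PK κ L)} (hA : A ∈ U) :
    ∃ x' ∈ A, Prec κ x x' ∧ ∃ y ∈ B, Prec κ y' y ∧ kp y = kp x ∧
      c (E y) (kp x') = c (E x) (kp x') ∧ Ready U kp c e E y x' B' B'' := by
  classical
  obtain ⟨h1, h2⟩ := h
  have h3 : ∀ ν : Q, ∃ y : PK κ L, c (E x) ν ∈ KK U kp c e E y' (kp x) B B' →
      y ∈ B ∧ Prec κ y' y ∧ kp y = kp x ∧ ν ∈ SS U kp c e E y B' ∧ c (E y) ν = c (E x) ν := by
    intro ν
    by_cases h : c (E x) ν ∈ KK U kp c e E y' (kp x) B B'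
    · have h' := h
      obtain ⟨y, hy, h4, h5, ν', h6, h7⟩ := h'
      have h8 := hc _ _ _ _ h7
      subst h8
      exact ⟨y, fun _ => ⟨hy, h4, h5, h6, h7⟩⟩
    · exact ⟨x, fun h' => absurd h' h⟩
  choose y hy using h3
  obtain ⟨i, hi⟩ := hG.1 fun ν => KK U kp c e E (y ν) ν B' B''
  obtain ⟨x', ⟨⟨h4, h5⟩, h6⟩, h7⟩ := nonempty_of_mem
    (hU.inter (hU.inter (hU.inter h2 (hU.fine i)) hA) (hU.prec hL x))
  obtain ⟨h8, h9, h10, h11, h12⟩ := hy (kp x') h4
  refine ⟨x', h6, h7, y (kp x'), h8, h9, h10, h12, h11, ?_⟩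
  have h13 := hG.2.2 x' i h5
  rw [hi] at h13
  exact h13 (KK_large hU hL hG hB'' h11)

end Pool.Agent.W872.SP
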