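import Pool.Agent.W872.SP.Conc

/-!
# The quotient has large antichains in the full generic extension
-/

set_option linter.unusedSectionVars false
set_option linter.unusedVariables false

namespace Pool.Agent.W872.SP

open Cardinal Ordinal

variable {κ μ : Cardinal.{0}} {L : Type} [LinearOrder L] [WellFoundedLT L]
variable {U : Ultrafilter (PK κ L)}

theorem stem_compat (hU : FineNormal κ U) (hL : κ.ord ≤ typeLT L) (p q : Cond κ U)
    (h : p.stem = q.stem) : ∃ r, r ≤ p ∧ r ≤ q :=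
  ⟨mk hU hL p.stem p.chain (p.A ∩ q.A) (hU.inter p.mem q.mem),
    mk_le hU hL [] (by simp) (by simp) Set.inter_subset_left,
    mk_le hU hL [] (by simp [h]) (by simp) Set.inter_subset_right⟩

theorem mk_list_PK (hinf : ℵ₀ ≤ #L) (h : #(PK κ L) ≤ #L) : #(List (PK κ L)) ≤ #L :=
  (mk_list_le_max _).trans (max_le hinf h)

theorem antichain_of_gch (hG : GCH) (hord : ord #L = typeLT L) (hcard : #L = Order.succ μ)
    (hκμ : κ ≤ μ) (hcof : κ ≤ μ.ord.cof) (hU : FineNormal κ U) :
    ∃ B : Set (Set (Cond κ U)), CompleteSubalgebra B ∧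
      HasAntichain (fun (p : Cond κ U) b => p ∈ b) B (Order.succ (Order.succ μ)) := by
  classical
  have hμ : ℵ₀ ≤ μ := hU.unc.le.trans hκμ
  have hκL : κ < #L := by rw [hcard]; exact Order.lt_succ_of_le hκμ
  have hLlt : κ.ord < typeLT L := by rw [← hord]; exact ord_lt_ord.2 hκL
  have hL : κ.ord ≤ typeLT L := hLlt.le
  have hregL : (Order.succ μ).IsRegular := isRegular_succ hμ
  have hcofL : Order.cof L = Order.succ μ := by
    rw [← cof_type, ← hord, hcard, hregL.cof_ord]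
  have hinf : ℵ₀ ≤ #L := by rw [hcard]; exact hμ.trans (Order.le_succ μ)
  have hPK : #(PK κ L) ≤ #L := mk_small_subsets hG hord (by
    rw [hcofL]; exact hκμ.trans (Order.le_succ μ)) hinf
  have hmlt : μ.ord < typeLT L := by
    rw [← hord, ord_lt_ord, hcard]
    exact Order.lt_succ μ
  obtain ⟨m, hm⟩ : ∃ m : L, typein (α := L) (· < ·) m = μ.ord :=
    ⟨enum (α := L) (· < ·) ⟨μ.ord, hmlt⟩, typein_enum _ _⟩
  have hIm : #(Set.Iio m) = μ := mk_Iio_m hm
  have hIio : ∀ Δ : L, #(Set.Iio Δ) ≤ μ := fun Δ => by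
    have := Cardinal.mk_Iio_lt Δ hord
    rw [hcard] at this
    exact Order.lt_succ_iff.1 this
  -- the coding functions
  obtain ⟨X, hX⟩ : ∃ X : L → Set (Set.Iio m), Function.Injective X := by
    have : #L ≤ #(Set (Set.Iio m)) := by rw [mk_set, hIm, hG μ hμ, hcard]
    obtain ⟨g⟩ := this
    exact ⟨g, g.injective⟩
  obtain ⟨e, he⟩ : ∃ e : PK κ L → L, Function.Injective e := by
    obtain ⟨g⟩ := hPK
    exact ⟨g, g.injective⟩
  obtain ⟨cd, hcd⟩ : ∃ cd : (Σ δ : L, Set (Set.Iio δ)) → L, Function.Injective cd := by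
    have : #(Σ δ : L, Set (Set.Iio δ)) ≤ #L := by
      rw [mk_sigma]
      refine (sum_le_sum _ (fun _ => #L) fun δ => ?_).trans ?_
      · rw [mk_set]
        exact two_power_le hG (by rw [hcard]; exact Order.lt_succ_of_le (hIio δ)) hinf
      · rw [sum_const, Cardinal.lift_id, mul_eq_self hinf]
    obtain ⟨g⟩ := this
    exact ⟨g, g.injective⟩
  obtain ⟨F₁, F₂, hF⟩ := exists_F (κ := κ) (m := m) fun Δ => by rw [hIm]; exact hIio Δ
  set kp : PK κ L → QQ κ m := kpm m with hkp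
  set c := cc κ X with hcdef
  have hc : ∀ σ τ ν ν', c σ ν = c τ ν' → ν = ν' := cc_det X
  have hne : ∀ ν, {x | kp x ≠ ν} ∈ U := kpm_ne hU (by rw [hIm]; exact hκμ)
  obtain ⟨Φ, E, hGood⟩ := exists_good hU he hκL hPK
    (by rw [hcard]; exact mk_codes hG hm hcof hμ) kp c
  have hQ : #(QQ κ m × QQ κ m × (QQ κ m × QQ κ m)) < #L := by
    have h1 := mk_QQ hG hm hcof hμ
    rw [hcard, Order.lt_succ_iff]
    simp only [mk_prod, Cardinal.lift_id]
    calc #(QQ κ m) * (#(QQ κ m) * (#(QQ κ m) * #(QQ κ m))) ≤ μ * (μ * (μ * μ)) := by gcongr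
      _ = μ := by rw [mul_eq_self hμ, mul_eq_self hμ, mul_eq_self hμ]
  have hTyp : {z | Typ kp c E F₁ F₂ z} ∈ U := by
    refine Filter.mem_of_superset (hU.inter (hU.inter (hU.inter (cc_ne hU hX)
      (hU.closedPK hL E)) (hU.closed₂ F₁)) (hU.closed₂ F₂)) ?_
    rintro z ⟨⟨⟨h1, h2⟩, h3⟩, h4⟩
    exact ⟨h1, h2, h3, h4⟩
  -- closure points
  have hsmall : ∀ δ : L, #{x : PK κ L // x.1 ⊆ Set.Iio δ} < Order.cof L := by
    intro δ
    rw [hcofL, Order.lt_succ_iff]
    refine le_trans ?_ (mk_QQ hG hm hcof hμ)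
    obtain ⟨g⟩ : #(Set.Iio δ) ≤ #(Set.Iio m) := by rw [hIm]; exact hIio δ
    refine mk_le_of_injective (f := fun x : {x : PK κ L // x.1 ⊆ Set.Iio δ} =>
      (⟨Set.range fun β : x.1.1 => g ⟨β.1, x.2 β.2⟩, lt_of_le_of_lt mk_range_le x.1.2⟩ : QQ κ m)) ?_
    have key : ∀ x y : {x : PK κ L // x.1 ⊆ Set.Iio δ},
        (Set.range fun β : x.1.1 => g ⟨β.1, x.2 β.2⟩) ⊆ (Set.range fun β : y.1.1 => g ⟨β.1, y.2 β.2⟩) →
        x.1.1 ⊆ y.1.1 := by
      intro x y hxy β hβ
      obtain ⟨β', hβ'⟩ := hxy ⟨⟨β, hβ⟩, rfl⟩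
      have h1 := congrArg Subtype.val (g.injective hβ')
      simp only at h1
      rw [← h1]
      exact β'.2
    intro x y hxy
    simp only [Subtype.mk.injEq] at hxy
    exact Subtype.ext (Subtype.ext (Set.Subset.antisymm (key x y hxy.le) (key y x hxy.ge)))
  have hκreg : κ.IsRegular := hU.isRegular hLlt
  set C' : Set L := {Δ | ∀ x : PK κ L, x.1 ⊆ Set.Iio Δ → E x < Δ} with hC'
  have hC'card : Order.succ μ ≤ #C' := by
    rw [← hcofL]
    refine Order.cof_le fun δ₀ => ?_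
    obtain ⟨Δ, h1, h2⟩ := exists_closure hκreg (by rw [hcofL, ← hcard]; exact hκL) hsmall E δ₀
    exact ⟨Δ, h2, h1⟩
  -- the sets `A b`
  set A : Set L → Set (PK κ L) := fun b => {z | Typ kp c E F₁ F₂ z} ∩
    {z : PK κ L | ∀ (b b' : Set L) (Δ γ : L), Δ < γ → (∀ β < Δ, (β ∈ b ↔ β ∈ b')) →
      ¬ (Δ ∈ b ↔ Δ ∈ b') → cod cd b γ ∈ z.1 → cod cd b' γ ∈ z.1 → Δ ∈ z.1} ∩
    {z : PK κ L | ∀ γ ∈ z.1, z ∈ {z : PK κ L | cod cd b γ ∈ z.1}} with hAdef
  have hA : ∀ b, A b ∈ U := fun b =>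
    hU.inter (hU.inter hTyp (cod_split hU hcd)) (hU.normal _ fun γ => hU.fine _)
  -- the pairs
  have hpairs : ∀ a : Set C', ∃ (x₀ y₀ : PK κ L) (p q : Cond κ U), x₀ ≠ y₀ ∧
      p.stem[0]? = some x₀ ∧ q.stem[0]? = some y₀ ∧ Inv (A (Subtype.val '' a)) p ∧
      Inv (A (Subtype.val '' a)) q ∧ InQ (PairAlg (RR (U := U) kp c e E)) p q := by
    intro a
    obtain ⟨x₀, hx₀, y₀, hy₀, x₁, hx₁, p, q, h1, h2, h3, h4, h5, h6⟩ :=
      start hU hL hGood hc hκL hQ (hA (Subtype.val '' a))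
    obtain ⟨p', hp', h7⟩ := exists_inQ (genPair hU hL hGood hc) h6
    refine ⟨x₀, y₀, p', q, h1, getElem?_of_le hp' (by rw [h2]; rfl), by rw [h3]; rfl,
      Inv.mono ⟨?_, h4⟩ hp', ⟨?_, h5⟩, h7⟩
    · rw [h2]
      intro z hz
      simp only [List.mem_cons, List.not_mem_nil, or_false] at hz
      rcases hz with rfl | rfl
      · exact hx₀
      · exact hx₁
    · rw [h3]
      intro z hz
      simp only [List.mem_cons, List.not_mem_nil, or_false] at hz
      rw [hz]
      exact hy₀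
  choose x₀ y₀ p q hxy hpx hqy hpA hqA hpq using hpairs
  have hpow : Order.succ (Order.succ μ) ≤ #(Set C') := by
    rw [mk_set, ← hG _ hregL.aleph0_le]
    exact power_le_power_left two_ne_zero hC'card
  have hθreg : (Order.succ (Order.succ μ)).IsRegular := isRegular_succ hregL.aleph0_le
  obtain ⟨w, hw⟩ := infinite_pigeonhole_card
    (fun a : Set C' => (⟨(Subtype.val '' a) ∩ (x₀ a).1,
      lt_of_le_of_lt (mk_le_mk_of_subset Set.inter_subset_right) (x₀ a).2⟩ : PK κ L))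
    (Order.succ (Order.succ μ)) hpow hθreg.aleph0_le (by
      rw [hθreg.cof_ord]
      exact lt_of_le_of_lt hPK (by rw [hcard]; exact Order.lt_succ _))
  rw [← mk_toType (Order.succ (Order.succ μ))] at hw
  obtain ⟨g⟩ := hw
  have := noMax_of_isRegular hθreg
  have hcofι : Order.cof (Order.succ (Order.succ μ)).ord.ToType = Order.succ (Order.succ μ) := by
    rw [cof_toType, hθreg.cof_ord]
  refine ⟨PairAlg (RR (U := U) kp c e E), pairAlg_complete (genPair hU hL hGood hc), ?_⟩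
  have key := hasAntichain_of (ι := (Order.succ (Order.succ μ)).ord.ToType)
    (P := Cond κ U) (S := List (PK κ L)) Cond.stem (stem_compat hU hL) (by
      rw [hcofι]
      refine lt_of_le_of_lt (mk_list_PK hinf hPK) ?_
      rw [hcard]
      exact Order.lt_succ _) (fun i => p (g i).1) (fun ξ => by
        rw [hcofι]
        have := Cardinal.mk_Iio_lt ξ (typeLT_toType (Order.succ (Order.succ μ)))
        rwa [mk_toType] at this)
    (B := PairAlg (RR (U := U) kp c e E)) (fun i => q (g i).1) (fun i => hpq _) (by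
      rintro i j hij ⟨p', q', h1, h2, h3, h4, h5⟩
      set a := (g i).1 with ha
      set a' := (g j).1 with ha'
      have haa : a ≠ a' := fun h => hij (g.injective (Subtype.ext h))
      have hbb : (Subtype.val '' a : Set L) ≠ Subtype.val '' a' := fun h =>
        haa (Set.image_injective.2 Subtype.val_injective h)
      have hex : ∃ δ : L, ¬ (δ ∈ (Subtype.val '' a : Set L) ↔ δ ∈ (Subtype.val '' a' : Set L)) := by
        by_contra hc
        push Not at hc
        exact hbb (Set.ext hc)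
      obtain ⟨Δ, hΔ, hmin⟩ := WellFounded.has_min (wellFounded_lt (α := L))
        {δ : L | ¬ (δ ∈ (Subtype.val '' a : Set L) ↔ δ ∈ (Subtype.val '' a' : Set L))} hex
      have hmin' : ∀ β < Δ, (β ∈ (Subtype.val '' a : Set L) ↔ β ∈ (Subtype.val '' a' : Set L)) := by
        intro β hβ
        by_contra h
        exact hmin β h hβ
      have hΔC : Δ ∈ C' := by
        by_contra h
        apply hΔ
        constructor
        · rintro ⟨z, -, rfl⟩
          exact absurd z.2 h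
        · rintro ⟨z, -, rfl⟩
          exact absurd z.2 h
      have hx : x₀ a = x₀ a' := by
        have h6 := getElem?_of_le h1 (hpx a)
        have h7 := getElem?_of_le h2 (hpx a')
        rw [h6] at h7
        exact Option.some.inj h7
      have h0 : Δ ∉ (x₀ a).1 := by
        intro h6
        have h7 := (g i).2
        have h8 := (g j).2
        simp only [Set.mem_preimage, Set.mem_singleton_iff] at h7 h8
        have h9 := congrArg Subtype.val (h7.trans h8.symm)
        simp only at h9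
        have h10 := Set.ext_iff.1 h9 Δ
        simp only [Set.mem_inter_iff] at h10
        apply hΔ
        have h11 : Δ ∈ (x₀ a').1 := by rw [← hx]; exact h6
        constructor
        · intro h; exact (h10.1 ⟨h, h6⟩).1
        · intro h; exact (h10.2 ⟨h, h11⟩).1
      refine incompatible (A := A (Subtype.val '' a) ∩ A (Subtype.val '' a')) (F₁ := F₁) (F₂ := F₂)
        (Δ := Δ) hU hL hGood hc hne ?_ hΔC ?_ (p := p') (q := q') ?_ ?_ (hxy a)
        (getElem?_of_le h1 (hpx a)) (getElem?_of_le h3 (hqy a)) h0 h5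
      · rintro z ⟨⟨⟨h6, h7⟩, h8⟩, ⟨-, h9⟩⟩
        refine ⟨h6, fun γ hγ hle => ?_⟩
        rcases hle.eq_or_lt with rfl | hlt
        · exact hγ
        · exact h7 _ _ Δ γ hlt hmin' hΔ (h8 γ hγ) (h9 γ hγ)
      · intro z w hz hw hk hΔz hΔw β hβ hβz
        exact hF z w hz.f₁ hw.f₂ hk Δ hΔz hΔw β hβ hβz
      · have h6 := (hpA a).mono h1
        have h7 := (hpA a').mono h2
        exact ⟨fun z hz => ⟨h6.1 z hz, h7.1 z hz⟩, fun z hz => ⟨h6.2 hz, h7.2 hz⟩⟩
      · have h6 := (hqA a).mono h3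
        have h7 := (hqA a').mono h4
        exact ⟨fun z hz => ⟨h6.1 z hz, h7.1 z hz⟩, fun z hz => ⟨h6.2 hz, h7.2 hz⟩⟩)
  rwa [mk_toType] at key

end Pool.Agent.W872.SP
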