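import Pool.Agent.W872.SP.Pair

/-!
# The algebra of generic pairs knows the coded sequence
-/

set_option linter.unusedSectionVars false
set_option linter.unusedVariables false

namespace Pool.Agent.W872.SP

open Cardinal Ordinal

variable {κ : Cardinal.{0}} {L : Type} [LinearOrder L] [WellFoundedLT L]
variable {U : Ultrafilter (PK κ L)} {Q C : Type}
variable {kp : PK κ L → Q} {c : L → Q → C} {e E : PK κ L → L} {Φ : L → Q → Set C}
variable (hU : FineNormal κ U) (hL : κ.ord ≤ typeLT L) (hG : Good U kp c e Φ E)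
  (hc : ∀ σ τ ν ν', c σ ν = c τ ν' → ν = ν') (hne : ∀ ν, {x | kp x ≠ ν} ∈ U)

include hU hL in
theorem exists_avoid (n : ℕ) (W : List (PK κ L) → Set (PK κ L)) (hW : ∀ s, W s ∈ U) :
    ∀ r : Cond κ U, r.stem.length ≤ n → ∃ r' ≤ r, ∃ s x, r'.stem = s ++ [x] ∧ s.length = n ∧
      x ∈ W s := by
  intro r hr
  induction n with
  | zero =>
    obtain ⟨x, hx, hx'⟩ := nonempty_of_mem (hU.inter r.mem (hW []))
    obtain ⟨r', hr', h1, -⟩ := ext_one hU hL r hx r.A r.mem le_rfl
    have h2 : r.stem = [] := List.length_eq_zero_iff.1 (Nat.le_zero.1 hr)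
    exact ⟨r', hr', [], x, by rw [h1, h2], rfl, hx'⟩
  | succ n ih =>
    have h0 : ∃ r' ≤ r, r'.stem.length = n + 1 := by
      rcases Nat.lt_or_ge r.stem.length (n + 1) with h | h
      · obtain ⟨r', hr', s, x, h1, h2, -⟩ := ih (by omega)
        exact ⟨r', hr', by rw [h1, List.length_append, h2]; rfl⟩
      · exact ⟨r, le_rfl, le_antisymm hr h⟩
    obtain ⟨r', hr', h1⟩ := h0
    obtain ⟨x, hx, hx'⟩ := nonempty_of_mem (hU.inter r'.mem (hW r'.stem))
    obtain ⟨r'', hr'', h2, -⟩ := ext_one hU hL r' hx r'.A r'.mem le_rfl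
    exact ⟨r'', hr''.trans hr', r'.stem, x, h2, h1, hx'⟩

/-- the `n`-th `κ` is `ν` -/
def b1 (U : Ultrafilter (PK κ L)) (kp : PK κ L → Q) (n : ℕ) (ν : Q) : Set (Cond κ U) :=
  {r | ∃ x, r.stem[n]? = some x ∧ kp x = ν}

/-- the `n`-th coded value is `a` -/
def b2 (U : Ultrafilter (PK κ L)) (kp : PK κ L → Q) (c : L → Q → C) (E : PK κ L → L)
    (n : ℕ) (a : C) : Set (Cond κ U) :=
  {r | ∃ x x', r.stem[n]? = some x ∧ r.stem[n + 1]? = some x' ∧ c (E x) (kp x') = a}

include hU hL hne in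
theorem regOpen_b1 (n : ℕ) (ν : Q) : RegOpen (b1 U kp n ν) := by
  refine regOpen_of ?_ fun r hr => ?_
  · rintro p ⟨x, h1, h2⟩ q hq
    exact ⟨x, getElem?_of_le hq h1, h2⟩
  · rcases Nat.lt_or_ge n r.stem.length with h | h
    · refine ⟨r, le_rfl, ?_⟩
      rintro q hq ⟨x, h1, h2⟩
      have h3 := getElem?_of_le hq (List.getElem?_eq_getElem h)
      rw [h3] at h1
      exact hr ⟨_, List.getElem?_eq_getElem h, by
        rw [← h2]; congr 1; exact Option.some.inj h1⟩
    · obtain ⟨r', hr', s, x, h1, h2, h3⟩ := exists_avoid hU hL n (fun _ => {x | kp x ≠ ν})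
        (fun _ => hne ν) r h
      refine ⟨r', hr', ?_⟩
      rintro q hq ⟨x', h4, h5⟩
      have h6 : r'.stem[n]? = some x := by
        rw [h1, ← h2, List.getElem?_append_right le_rfl]
        simp
      rw [getElem?_of_le hq h6] at h4
      apply h3
      rw [Option.some.inj h4]
      exact h5

include hU hL hc hne in
theorem regOpen_b2 (n : ℕ) (a : C) : RegOpen (b2 U kp c E n a) := by
  classical
  refine regOpen_of ?_ fun r hr => ?_
  · rintro p ⟨x, x', h1, h2, h3⟩ q hq
    exact ⟨x, x', getElem?_of_le hq h1, getElem?_of_le hq h2, h3⟩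
  · rcases Nat.lt_or_ge (n + 1) r.stem.length with h | h
    · refine ⟨r, le_rfl, ?_⟩
      rintro q hq ⟨x, x', h1, h2, h3⟩
      have h4 := getElem?_of_le hq (List.getElem?_eq_getElem h)
      have h5 := getElem?_of_le hq (List.getElem?_eq_getElem (Nat.lt_of_succ_lt h))
      rw [h4] at h2
      rw [h5] at h1
      refine hr ⟨_, _, List.getElem?_eq_getElem (Nat.lt_of_succ_lt h), List.getElem?_eq_getElem h, ?_⟩
      rw [← h3, Option.some.inj h1, Option.some.inj h2]
    · have hW : ∀ x : PK κ L, {x' | c (E x) (kp x') ≠ a} ∈ U := by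
        intro x
        by_cases hx : ∃ ν, c (E x) ν = a
        · obtain ⟨ν, hν⟩ := hx
          refine Filter.mem_of_superset (hne ν) fun x' hx' h' => ?_
          exact hx' (hc _ _ _ _ (h'.trans hν.symm))
        · exact Filter.mem_of_superset Filter.univ_mem fun x' _ h' => hx ⟨_, h'⟩
      obtain ⟨r', hr', s, x', h1, h2, h3⟩ := exists_avoid hU hL (n + 1)
        (fun s => if h : ∃ x, s[n]? = some x then {x' | c (E (Classical.choose h)) (kp x') ≠ a}
          else Set.univ) (fun s => by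
            by_cases h : ∃ x, s[n]? = some x
            · simp only [h, dite_true]
              exact hW _
            · simp only [h, dite_false]
              exact Filter.univ_mem) r h
      refine ⟨r', hr', ?_⟩
      rintro q hq ⟨x, x'', h4, h5, h6⟩
      have h7 : r'.stem[n + 1]? = some x' := by
        rw [h1, ← h2, List.getElem?_append_right le_rfl]
        simp
      have h8 : ∃ x, s[n]? = some x := ⟨_, List.getElem?_eq_getElem (by omega)⟩
      have h9 := Classical.choose_spec h8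
      have h10 : r'.stem[n]? = some (Classical.choose h8) := by
        rw [h1, List.getElem?_append_left (by omega)]
        exact h9
      rw [getElem?_of_le hq h7] at h5
      rw [getElem?_of_le hq h10] at h4
      simp only [h8, dite_true] at h3
      apply h3
      rw [Option.some.inj h4, Option.some.inj h5]
      exact h6

include hU hL hG hc hne in
theorem b1_mem (n : ℕ) (ν : Q) : b1 U kp n ν ∈ PairAlg (RR (U := U) kp c e E) := by
  have hgen := genPair hU hL hG hc
  have hreg := regOpen_b1 (U := U) hU hL hne n ν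
  refine ⟨hreg, fun p q h => ⟨?_, ?_⟩⟩
  · rintro ⟨h1, h2⟩
    obtain ⟨p', hp', q', hq', ⟨B, hB, hR⟩, h3⟩ := hgen.right p q h _
      (denseOpen_length hU hL (n + 1))
    obtain ⟨s, x, t, y, -, -, -, hm, -⟩ := hR
    obtain ⟨x, h4, h5⟩ := hreg.1 p h1 p' hp'
    refine h2 q' hq' ⟨_, List.getElem?_eq_getElem h3, ?_⟩
    rw [← h5]
    exact (hm n _ _ h4 (List.getElem?_eq_getElem h3)).1.symm
  · rintro ⟨h1, h2⟩
    obtain ⟨p', hp', q', hq', ⟨B, hB, hR⟩, h3⟩ := hgen.left p q h _
      (denseOpen_length hU hL (n + 1))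
    obtain ⟨s, x, t, y, -, -, -, hm, -⟩ := hR
    obtain ⟨x, h4, h5⟩ := hreg.1 q h2 q' hq'
    refine h1 p' hp' ⟨_, List.getElem?_eq_getElem h3, ?_⟩
    rw [← h5]
    exact (hm n _ _ (List.getElem?_eq_getElem h3) h4).1

include hU hL hG hc hne in
theorem b2_mem (n : ℕ) (a : C) : b2 U kp c E n a ∈ PairAlg (RR (U := U) kp c e E) := by
  have hgen := genPair hU hL hG hc
  have hreg := regOpen_b2 (U := U) (E := E) hU hL hc hne n a
  refine ⟨hreg, fun p q h => ⟨?_, ?_⟩⟩
  · rintro ⟨h1, h2⟩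
    obtain ⟨p', hp', q', hq', ⟨B, hB, hR⟩, h3⟩ := hgen.right p q h _
      (denseOpen_length hU hL (n + 2))
    obtain ⟨s, x, t, y, -, -, -, hm, -⟩ := hR
    obtain ⟨x, x', h4, h5, h6⟩ := hreg.1 p h1 p' hp'
    have h7 : q'.stem[n]? = some (q'.stem[n]'(Nat.lt_of_succ_lt h3)) :=
      List.getElem?_eq_getElem (Nat.lt_of_succ_lt h3)
    have h8 : q'.stem[n + 1]? = some (q'.stem[n + 1]'h3) := List.getElem?_eq_getElem h3
    refine h2 q' hq' ⟨_, _, h7, h8, ?_⟩
    have h9 := (hm n _ _ h4 h7).2 _ h5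
    rw [← (hm (n + 1) _ _ h5 h8).1, ← h9]
    exact h6
  · rintro ⟨h1, h2⟩
    obtain ⟨p', hp', q', hq', ⟨B, hB, hR⟩, h3⟩ := hgen.left p q h _
      (denseOpen_length hU hL (n + 2))
    obtain ⟨s, x, t, y, -, -, -, hm, -⟩ := hR
    obtain ⟨x, x', h4, h5, h6⟩ := hreg.1 q h2 q' hq'
    have h7 : p'.stem[n]? = some (p'.stem[n]'(Nat.lt_of_succ_lt h3)) :=
      List.getElem?_eq_getElem (Nat.lt_of_succ_lt h3)
    have h8 : p'.stem[n + 1]? = some (p'.stem[n + 1]'h3) := List.getElem?_eq_getElem h3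
    refine h1 p' hp' ⟨_, _, h7, h8, ?_⟩
    have h9 := (hm n _ _ h7 h4).2 _ h8
    rw [h9, (hm (n + 1) _ _ h8 h5).1]
    exact h6

include hU hL hG hc hne in
/-- conditions which are compatible over the algebra have matched stems -/
theorem matched_of_inQ {p q : Cond κ U} (h : InQ (PairAlg (RR (U := U) kp c e E)) p q) (n : ℕ) :
    (∀ x y, p.stem[n]? = some x → q.stem[n]? = some y → kp x = kp y) ∧
    (∀ x x' y y', p.stem[n]? = some x → p.stem[n + 1]? = some x' → q.stem[n]? = some y →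
      q.stem[n + 1]? = some y' → c (E x) (kp x') = c (E y) (kp y')) := by
  refine ⟨fun x y hx hy => ?_, fun x x' y y' hx hx' hy hy' => ?_⟩
  · obtain ⟨r, hr, z, h1, h2⟩ := h p le_rfl _ (b1_mem hU hL hG hc hne n (kp x)) ⟨x, hx, rfl⟩
    rw [getElem?_of_le hr hy] at h1
    rw [← h2, Option.some.inj h1]
  · obtain ⟨r, hr, z, z', h1, h2, h3⟩ := h p le_rfl _
      (b2_mem hU hL hG hc hne n (c (E x) (kp x'))) ⟨x, x', hx, hx', rfl⟩
    rw [getElem?_of_le hr hy] at h1
    rw [getElem?_of_le hr hy'] at h2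
    rw [← h3, Option.some.inj h1, Option.some.inj h2]

end Pool.Agent.W872.SP
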