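import Pool.Agent.W872.SP.Final

/-!
# The quotient satisfies the chain condition in the intermediate extension
-/

set_option linter.unusedSectionVars false
set_option linter.unusedVariables false

namespace Pool.Agent.W872.SP

open Cardinal Ordinal

/-- The nonzero elements of `B`, as a forcing notion. -/
abbrev Pos {P : Type} (B : Set (Set P)) : Type := {b : Set P // b ∈ B ∧ b.Nonempty}

theorem no_antichain_of_linked {P S : Type} [Preorder P] (st : P → S)
    (hst : ∀ p q, st p = st q → ∃ r, r ≤ p ∧ r ≤ q) {B : Set (Set P)}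
    (hB : CompleteSubalgebra B) {θ : Cardinal.{0}} (hθ : #S < θ) (hinf : ℵ₀ ≤ θ) :
    ¬ HasAntichain (fun (c : Pos B) b => c.1 ⊆ b) B θ := by
  classical
  rintro ⟨ι, hι, f, N, h⟩
  have hinfι : Infinite ι := by
    rw [infinite_iff, hι]
    exact hinf
  have h1 : ∀ i : ι, ∃ g ≤ f, ∃ x, N.dec i g x ∧ ForcesInQuot (fun (c : Pos B) b => c.1 ⊆ b) B g x := by
    intro i
    obtain ⟨j, hj⟩ := exists_ne i
    obtain ⟨g, hg, x, hx⟩ := N.total i f le_rfl
    obtain ⟨g', hg', x', hx'⟩ := N.total j g hg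
    exact ⟨g', hg'.trans hg, x, N.mono i _ _ _ hx hg',
      (h i j hj.symm g' (hg'.trans hg) x x' (N.mono i _ _ _ hx hg') hx').1⟩
  choose g hg x hx hq using h1
  have h2 : ∀ i, ∃ r ≤ x i, r ∈ (g i).1 := fun i => hq i (g i) le_rfl _ (g i).2.1 le_rfl
  choose r hr hrg using h2
  have h3 : ¬ Function.Injective fun i => st (r i) := fun hinj =>
    absurd (mk_le_of_injective hinj) (not_le_of_gt (by rw [hι]; exact hθ))
  simp only [Function.Injective, not_forall] at h3
  obtain ⟨i, j, hij, hne⟩ := h3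
  obtain ⟨s, hs, hs'⟩ := hst _ _ hij
  have hsi : s ∈ (g i).1 := (hB.reg _ (g i).2.1).1 _ (hrg i) s hs
  have hsj : s ∈ (g j).1 := (hB.reg _ (g j).2.1).1 _ (hrg j) s hs'
  let c : Pos B := ⟨proj B s, proj_mem hB s, ⟨s, mem_proj B s⟩⟩
  have hci : c ≤ g i := proj_sub (g i).2.1 hsi
  have hcj : c ≤ g j := proj_sub (g j).2.1 hsj
  refine (h i j hne c (hci.trans (hg i)) (x i) (x j) (N.mono i _ _ _ (hx i) hci)
    (N.mono j _ _ _ (hx j) hcj)).2.2 ⟨c, le_rfl, s, hs.trans (hr i), hs'.trans (hr j), ?_⟩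
  intro d hd b hb hdb
  by_contra hc
  push Not at hc
  have h4 : s ∈ Neg b := hc
  obtain ⟨t, ht⟩ := d.2.2
  exact proj_sub (hB.neg b hb) h4 (hd ht) t le_rfl (hdb ht)

theorem no_antichain_inVH (hG : GCH) (κ lam : Cardinal.{0}) (hκ : κ < lam) (hlam : lam.IsRegular)
    (U : Ultrafilter (PK κ lam.ord.ToType)) (hU : FineNormal κ U)
    (B : Set (Set (Cond κ U))) (hB : CompleteSubalgebra B) :
    ¬ HasAntichain (fun (c : Pos B) b => c.1 ⊆ b) B (Order.succ lam) := by
  have hL : κ.ord ≤ typeLT lam.ord.ToType := by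
    rw [type_toType]
    exact ord_le_ord.2 hκ.le
  have h0 : #(lam.ord.ToType) = lam := SP.mk_toType lam
  refine no_antichain_of_linked Cond.stem (stem_compat hU hL) hB ?_
    (hlam.aleph0_le.trans (Order.le_succ lam))
  have h1 : #(PK κ lam.ord.ToType) ≤ #(lam.ord.ToType) := by
    rw [h0]
    exact mk_PK hG hlam hκ.le
  have h2 := mk_list_PK (κ := κ) (by rw [h0]; exact hlam.aleph0_le) h1
  rw [h0] at h2
  exact Order.lt_succ_of_le h2

end Pool.Agent.W872.SP
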