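import Pool.Agent.W872.SP.Card
import Pool.Agent.W872.SP.Alg

/-!
# From long families of conditions to names for antichains
-/

set_option linter.unusedSectionVars false
set_option linter.unusedVariables false

namespace Pool.Agent.W872.SP

open Cardinal Ordinal

section

variable {ι S : Type} [LinearOrder ι] [WellFoundedLT ι]

theorem bounded_range {α : Type} (h : #α < Order.cof ι) (g : α → ι) : ∃ a, ∀ s, g s < a := by
  obtain ⟨a, ha⟩ := bounded_of_lt_cof (s := Set.range g) (lt_of_le_of_lt mk_range_le h)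
  exact ⟨a, fun s => ha _ ⟨s, rfl⟩⟩

theorem cofinal_fiber (hS : #S < Order.cof ι) (f : ι → S) : ∃ s, ∀ i₀, ∃ i ≥ i₀, f i = s := by
  by_contra hc
  push Not at hc
  choose g hg using hc
  obtain ⟨a, ha⟩ := bounded_range hS g
  exact hg (f a) a (ha _).le rfl

variable {P : Type} [Preorder P] (st : P → S) (hst : ∀ p q, st p = st q → ∃ r, r ≤ p ∧ r ≤ q)
variable (hS : #S < Order.cof ι) (p : ι → P)

include hst hS in
theorem exists_unbounded : ∃ p₀, ∀ r ≤ p₀, ∀ i₀, ∃ i ≥ i₀, ∃ r' ≤ r, r' ≤ p i := by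
  by_contra hc
  push Not at hc
  have h1 : ∀ i, ∃ r ≤ p i, ∃ i₀, ∀ i' ≥ i₀, ∀ r' ≤ r, ¬ r' ≤ p i' := fun i => hc (p i)
  choose r hr β hβ using h1
  obtain ⟨s, hs⟩ := cofinal_fiber hS fun i => st (r i)
  obtain ⟨i, -, hi⟩ := hs (β (Classical.choice ⟨β (Classical.choose (hs (Classical.choice
    (by
      by_contra hne
      rw [not_nonempty_iff] at hne
      have : Order.cof ι = 0 := Order.cof_eq_zero
      rw [this] at hS
      exact absurd hS (not_lt_of_ge zero_le)))))⟩))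
  obtain ⟨i', hi', hi''⟩ := hs (β i)
  obtain ⟨q, hq, hq'⟩ := hst (r i) (r i') (hi.trans hi''.symm)
  exact hβ i i' hi' q hq (hq'.trans (hr i'))

include hst hS in
theorem exists_block [NoMaxOrder ι] {p₀ : P}
    (h : ∀ r ≤ p₀, ∀ i₀, ∃ i ≥ i₀, ∃ r' ≤ r, r' ≤ p i) (i₀ : ι) :
    ∃ i₁, ∀ r ≤ p₀, ∃ i, i₀ ≤ i ∧ i < i₁ ∧ ∃ r' ≤ r, r' ≤ p i := by
  by_contra hc
  push Not at hc
  choose r hr hr' using hc
  have h1 : ∀ i₁, ∃ i, i₀ ≤ i ∧ i₁ ≤ i ∧ ∃ r' ≤ r i₁, r' ≤ p i := by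
    intro i₁
    obtain ⟨i, hi, r', h2, h3⟩ := h (r i₁) (hr i₁) (max i₀ i₁)
    exact ⟨i, (le_max_left _ _).trans hi, (le_max_right _ _).trans hi, r', h2, h3⟩
  choose f hf hf' r' h2 h3 using h1
  obtain ⟨s, hs⟩ := cofinal_fiber hS fun i => st (r' i)
  obtain ⟨i₁, -, h4⟩ := hs i₀
  obtain ⟨a, ha⟩ := exists_gt (f i₁)
  obtain ⟨i₂, h5, h6⟩ := hs a
  obtain ⟨q, hq, hq'⟩ := hst (r' i₁) (r' i₂) (h4.trans h6.symm)
  exact hr' i₂ (f i₁) (hf i₁) (ha.trans_le h5) q (hq'.trans (h2 i₂)) (hq.trans (h3 i₁))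

theorem exists_spaced (h : ∀ ξ : ι, #(Set.Iio ξ) < Order.cof ι) (g : ι → ι) :
    ∃ α : ι → ι, ∀ ξ ξ', ξ' < ξ → g (α ξ') < α ξ := by
  classical
  let F : ∀ ξ : ι, (∀ ξ', ξ' < ξ → ι) → ι := fun ξ ih =>
    if h : ∃ a, ∀ ξ' (hξ' : ξ' < ξ), g (ih ξ' hξ') < a then Classical.choose h else ξ
  let α : ι → ι := (wellFounded_lt (α := ι)).fix F
  have hα : ∀ ξ, α ξ = F ξ (fun ξ' _ => α ξ') := fun ξ => WellFounded.fix_eq _ F ξ
  refine ⟨α, fun ξ ξ' hlt => ?_⟩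
  have h1 : ∃ a, ∀ ξ' (hξ' : ξ' < ξ), g (α ξ') < a := by
    obtain ⟨a, ha⟩ := bounded_range (h ξ) fun ξ' : Set.Iio ξ => g (α ξ'.1)
    exact ⟨a, fun ξ' hξ' => ha ⟨ξ', hξ'⟩⟩
  have h2 : α ξ = Classical.choose h1 := by
    rw [hα ξ]
    exact dif_pos h1
  rw [h2]
  exact Classical.choose_spec h1 ξ' hlt

include hst hS in
theorem hasAntichain_of [NoMaxOrder ι] (hreg : ∀ ξ : ι, #(Set.Iio ξ) < Order.cof ι)
    {B : Set (Set P)} (q : ι → P) (h1 : ∀ i, InQ B (p i) (q i))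
    (h2 : ∀ i j, i ≠ j → ¬ ∃ p' q', p' ≤ p i ∧ p' ≤ p j ∧ q' ≤ q i ∧ q' ≤ q j ∧ InQ B p' q') :
    HasAntichain (fun (p : P) b => p ∈ b) B #ι := by
  classical
  obtain ⟨p₀, hp₀⟩ := exists_unbounded st hst hS p
  have h3 := exists_block st hst hS p hp₀
  choose g hg using h3
  obtain ⟨α, hα⟩ := exists_spaced hreg g
  refine ⟨ι, rfl, p₀, ⟨fun ξ r x => ∃ i, α ξ ≤ i ∧ i < g (α ξ) ∧ r ≤ p i ∧ x = q i ∧
    ∀ i', α ξ ≤ i' → i' < i → ∀ r' ≤ r, ¬ r' ≤ p i', ?_, ?_, ?_⟩, ?_⟩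
  · rintro ξ r r' x ⟨i, h4, h5, h6, h7, h8⟩ hr'
    exact ⟨i, h4, h5, hr'.trans h6, h7, fun i' h9 h10 s hs => h8 i' h9 h10 s (hs.trans hr')⟩
  · rintro ξ r x x' ⟨i, h4, h5, h6, h7, h8⟩ ⟨i', h4', h5', h6', h7', h8'⟩
    rcases lt_trichotomy i i' with h | h | h
    · exact absurd h6 (h8' i h4 h r le_rfl)
    · rw [h7, h7', h]
    · exact absurd h6' (h8 i' h4' h r le_rfl)
  · intro ξ r hr
    obtain ⟨i, hi, hmin⟩ := WellFounded.has_min (wellFounded_lt (α := ι))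
      {i | α ξ ≤ i ∧ i < g (α ξ) ∧ ∃ r' ≤ r, r' ≤ p i} (hg (α ξ) r hr)
    obtain ⟨h4, h5, r', h6, h7⟩ := hi
    refine ⟨r', h6, q i, i, h4, h5, h7, rfl, fun i' h8 h9 s hs hs' => ?_⟩
    exact hmin i' ⟨h8, h9.trans h5, s, hs.trans h6, hs'⟩ h9
  · rintro ξ ξ' hne r hr x x' ⟨i, h4, h5, h6, h7, h8⟩ ⟨i', h4', h5', h6', h7', h8'⟩
    subst h7
    subst h7'
    refine ⟨(h1 i).mono h6, (h1 i').mono h6', ?_⟩
    rintro ⟨s, hs, z, hz, hz', hq⟩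
    refine h2 i i' ?_ ⟨s, z, hs.trans h6, hs.trans h6', hz, hz', hq⟩
    rintro rfl
    rcases lt_or_gt_of_ne hne with h | h
    · exact absurd (h5.trans (hα ξ' ξ h)) (not_lt_of_ge h4')
    · exact absurd (h5'.trans (hα ξ ξ' h)) (not_lt_of_ge h4)

end

end Pool.Agent.W872.SP
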