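import Pool.Agent.W872.SP.Prikry
import Pool.Agent.W872.SP.Enum

/-!
# The generic pairs
-/

set_option linter.unusedSectionVars false
set_option linter.unusedVariables false

namespace Pool.Agent.W872.SP

open Cardinal Ordinal

variable {κ : Cardinal.{0}} {L : Type} [LinearOrder L] [WellFoundedLT L]
variable {U : Ultrafilter (PK κ L)} {Q C : Type}

/-- two finite sequences have the same `κ`s and the same coded values -/
def Matched (kp : PK κ L → Q) (c : L → Q → C) (E : PK κ L → L) (s t : List (PK κ L)) : Prop :=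
  ∀ n x y, s[n]? = some x → t[n]? = some y →
    kp x = kp y ∧ ∀ x', s[n + 1]? = some x' → c (E x) (kp x') = c (E y) (kp x')

/-- states of the construction of generic pairs -/
def RB (kp : PK κ L → Q) (c : L → Q → C) (e E : PK κ L → L) (B B' : Set (PK κ L))
    (p q : Cond κ U) : Prop :=
  ∃ s x t y, p.stem = s ++ [x] ∧ q.stem = t ++ [y] ∧ s.length = q.stem.length ∧
    Matched kp c E p.stem q.stem ∧ (∀ z ∈ B, Prec κ y z → z ∈ q.A) ∧ Ready U kp c e E y x B B'

variable {kp : PK κ L → Q} {c : L → Q → C} {e E : PK κ L → L} {Φ : L → Q → Set C}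

theorem Matched.snoc {s t : List (PK κ L)} {x x' y' : PK κ L}
    (h : Matched kp c E (s ++ [x]) t) (hlen : s.length = t.length) (h1 : kp y' = kp x)
    (h2 : c (E y') (kp x') = c (E x) (kp x')) :
    Matched kp c E (s ++ [x] ++ [x']) (t ++ [y']) := by
  intro n a b ha hb
  rcases lt_trichotomy n t.length with hn | hn | hn
  · rw [List.getElem?_append_left (by simp; omega)] at ha
    rw [List.getElem?_append_left hn] at hb
    obtain ⟨h3, h4⟩ := h n a b ha hb
    refine ⟨h3, fun a' ha' => h4 a' ?_⟩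
    rwa [List.getElem?_append_left (by simp; omega)] at ha'
  · have hb' : b = y' := by
      rw [hn, List.getElem?_append_right le_rfl] at hb
      simpa using hb.symm
    have ha1 : a = x := by
      rw [hn, ← hlen, List.getElem?_append_left (by simp), List.getElem?_append_right le_rfl] at ha
      simpa using ha.symm
    subst hb' ha1
    refine ⟨h1.symm, fun a' ha' => ?_⟩
    have ha2 : a' = x' := by
      rw [hn, ← hlen, List.getElem?_append_right (by simp)] at ha'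
      simpa using ha'.symm
    rw [ha2]
    exact h2.symm
  · rw [List.getElem?_eq_none (by simp; omega)] at hb
    simp at hb

variable (hU : FineNormal κ U) (hL : κ.ord ≤ typeLT L) (hG : Good U kp c e Φ E)
  (hc : ∀ σ τ ν ν', c σ ν = c τ ν' → ν = ν')

include hU hL hG hc in
theorem RB.next {B B' B'' : Set (PK κ L)} {p q : Cond κ U} (h : RB kp c e E B B' p q)
    (hB' : B' ∈ U) (hB'' : B'' ∈ U) (hsub : B' ⊆ B) {A₀ : Set (PK κ L)} (hA₀ : A₀ ∈ U)
    (hA₀B : B' ⊆ A₀) :
    ∃ p' ≤ p, ∃ q' ≤ q, ∃ x' ∈ p.A, ∃ y' ∈ B, p'.stem = p.stem ++ [x'] ∧ q'.stem = q.stem ++ [y'] ∧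
      p'.A ⊆ p.A ∧ q'.A ⊆ A₀ ∧ RB kp c e E B' B'' p' q' := by
  obtain ⟨s, x, t, y, h1, h2, h3, h4, h5, h6⟩ := h
  obtain ⟨x', hx', hxx', y', hy', hyy', h7, h8, h9⟩ := step hU hL hG hc hB' hB'' h6 p.mem
  obtain ⟨p', hp', hps, hpA⟩ := ext_one hU hL p hx' p.A p.mem le_rfl
  obtain ⟨q', hq', hqs, hqA⟩ : ∃ q' ≤ q, q'.stem = q.stem ++ [y'] ∧
      q'.A = (q.A ∩ A₀) ∩ {z | ∀ w ∈ (q.stem ++ [y']).getLast?, Prec κ w z} := by
    have hc : (q.stem ++ [y']).IsChain (Prec κ) := by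
      rw [chain_snoc]
      exact ⟨q.chain, q.all_above (h5 y' hy' hyy')⟩
    exact ⟨mk hU hL _ hc (q.A ∩ A₀) (hU.inter q.mem hA₀),
      mk_le hU hL [y'] rfl (by simpa using h5 y' hy' hyy') Set.inter_subset_left, rfl, rfl⟩
  refine ⟨p', hp', q', hq', x', hx', y', hy', hps, hqs, hpA, ?_, ?_⟩
  · rw [hqA]
    exact fun z hz => hz.1.2
  · refine ⟨s ++ [x], x', q.stem, y', by rw [hps, h1], hqs, ?_, ?_, ?_, h9⟩
    · rw [hqs, List.length_append, List.length_append, h3]
      rfl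
    · rw [hps, hqs, h1]
      rw [h1] at h4
      exact h4.snoc h3 h7 h8
    · intro z hz hyz
      rw [hqA]
      refine ⟨⟨h5 z (hsub hz) (hyy'.trans hyz), hA₀B hz⟩, ?_⟩
      intro w hw
      rw [List.getLast?_concat] at hw
      simp only [Option.mem_def, Option.some.injEq] at hw
      rw [← hw]
      exact hyz

/-- the relation of generic pairs -/
def RR (kp : PK κ L → Q) (c : L → Q → C) (e E : PK κ L → L) (p q : Cond κ U) : Prop :=
  ∃ B ∈ U, RB kp c e E B B p q

include hU hL in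
theorem mem_of_Dn {D : Set (Cond κ U)} (hD : DenseOpen D) {B : Set (PK κ L)}
    (h : ∀ s (hs : s.IsChain (Prec κ)), Dn hU hL D 0 s → ∀ A (hA : A ∈ U), A ⊆ B →
        mk hU hL s hs A hA ∈ D) {p : Cond κ U} (h0 : Dn hU hL D 0 p.stem) (hA : p.A ⊆ B) : p ∈ D := by
  refine hD.1 _ (h p.stem p.chain h0 p.A p.mem hA) p ⟨[], by simp [mk], by simp, ?_⟩
  exact fun z hz => ⟨hz, fun x hx => p.above x hx z hz⟩

include hU hL hG hc in
theorem genPair : GenPair (RR (U := U) kp c e E) := by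
  constructor
  · rintro p q ⟨B, hB, h⟩ D hD
    obtain ⟨Bs, hBs, hD1, hD0⟩ := strong_prikry hU hL hD
    -- shrink `p`
    set p₀ : Cond κ U := mk hU hL p.stem p.chain (p.A ∩ Bs) (hU.inter p.mem hBs) with hp₀
    have hp₀le : p₀ ≤ p := mk_le hU hL [] (by simp) (by simp) Set.inter_subset_left
    have hR₀ : RB kp c e E B B p₀ q := h
    have key : ∀ k (p' q' : Cond κ U), RB kp c e E B B p' q' → p'.A ⊆ Bs → Dn hU hL D k p'.stem →
        ∃ p'' ≤ p', ∃ q'' ≤ q', RR kp c e E p'' q'' ∧ p'' ∈ D := by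
      intro k
      induction k with
      | zero =>
        intro p' q' h1 h2 h3
        exact ⟨p', le_rfl, q', le_rfl, ⟨B, hB, h1⟩, mem_of_Dn hU hL hD hD0 h3 h2⟩
      | succ k ih =>
        intro p' q' h1 h2 h3
        obtain ⟨p'', hp'', q'', hq'', x', hx', y', hy', h4, h5, h6, h7, h8⟩ :=
          h1.next hU hL hG hc hB hB le_rfl (A₀ := Set.univ) Filter.univ_mem (Set.subset_univ _)
        have h9 : Dn hU hL D k p''.stem := by
          rw [h4]
          exact hD1 k _ _ h3 (h2 hx') (p'.all_above hx')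
        obtain ⟨p3, hp3, q3, hq3, h10⟩ := ih p'' q'' h8 (h6.trans h2) h9
        exact ⟨p3, hp3.trans hp'', q3, hq3.trans hq'', h10⟩
    obtain ⟨k, hk⟩ := exists_Dn hU hL hD p.stem p.chain
    obtain ⟨p', hp', q', hq', h1⟩ := key k p₀ q hR₀
      (Set.inter_subset_left.trans Set.inter_subset_right) hk
    exact ⟨p', hp'.trans hp₀le, q', hq', h1⟩
  · rintro p q ⟨B, hB, h⟩ D hD
    obtain ⟨Bs, hBs, hD1, hD0⟩ := strong_prikry hU hL hD
    have hB1 : B ∩ Bs ∈ U := hU.inter hB hBs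
    obtain ⟨p1, hp1, q1, hq1, -, -, -, -, -, -, -, -, h1⟩ :=
      h.next hU hL hG hc hB hB1 le_rfl (A₀ := Set.univ) Filter.univ_mem (Set.subset_univ _)
    obtain ⟨p2, hp2, q2, hq2, -, -, -, -, -, -, -, hA2, h2⟩ :=
      h1.next hU hL hG hc hB1 hB1 Set.inter_subset_left (A₀ := Bs) hBs Set.inter_subset_right
    have key : ∀ k (p' q' : Cond κ U), RB kp c e E (B ∩ Bs) (B ∩ Bs) p' q' → q'.A ⊆ Bs →
        Dn hU hL D k q'.stem → ∃ p'' ≤ p', ∃ q'' ≤ q', RR kp c e E p'' q'' ∧ q'' ∈ D := by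
      intro k
      induction k with
      | zero =>
        intro p' q' h1 h2 h3
        exact ⟨p', le_rfl, q', le_rfl, ⟨_, hB1, h1⟩, mem_of_Dn hU hL hD hD0 h3 h2⟩
      | succ k ih =>
        intro p' q' h1 h2 h3
        obtain ⟨p'', hp'', q'', hq'', x', hx', y', hy', h4, h5, h6, h7, h8⟩ :=
          h1.next hU hL hG hc hB1 hB1 le_rfl (A₀ := Bs) hBs Set.inter_subset_right
        have h9 : Dn hU hL D k q''.stem := by
          rw [h5]
          refine hD1 k _ _ h3 hy'.2 ?_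
          have h11 := q''.chain
          rw [h5, chain_snoc] at h11
          exact h11.2
        obtain ⟨p3, hp3, q3, hq3, h10⟩ := ih p'' q'' h8 h7 h9
        exact ⟨p3, hp3.trans hp'', q3, hq3.trans hq'', h10⟩
    obtain ⟨k, hk⟩ := exists_Dn hU hL hD q2.stem q2.chain
    obtain ⟨p', hp', q', hq', h3⟩ := key k p2 q2 h2 hA2 hk
    exact ⟨p', (hp'.trans hp2).trans hp1, q', (hq'.trans hq2).trans hq1, h3⟩

include hU hL hG hc in
/-- the starting point of generic pairs -/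
theorem start (hκ : κ < #L) (hQ : #(Q × Q × C) < #L) {A : Set (PK κ L)} (hA : A ∈ U) :
    ∃ x₀ ∈ A, ∃ y₀ ∈ A, ∃ x₁ ∈ A, ∃ (p q : Cond κ U), x₀ ≠ y₀ ∧ p.stem = [x₀, x₁] ∧
      q.stem = [y₀] ∧ p.A ⊆ A ∧ q.A ⊆ A ∧ RR kp c e E p q := by
  classical
  have h1 : ∀ y : PK κ L, ∃ ν, ν ∈ SS U kp c e E y A := fun y => by
    obtain ⟨z, hz⟩ := nonempty_of_mem (SS_large hU hL hG y hA)
    exact ⟨_, hz⟩
  choose ν hν using h1
  have h2 : ¬ Function.Injective fun y : A => ((kp y.1, ν y.1, c (E y.1) (ν y.1)) : Q × Q × C) := by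
    intro hinj
    exact absurd (mk_le_of_injective hinj) (not_le_of_gt (hQ.trans_le (hU.large hκ hA)))
  simp only [Function.Injective, not_forall] at h2
  obtain ⟨⟨x₀, hx₀⟩, ⟨y₀, hy₀⟩, h3, h4⟩ := h2
  simp only [Prod.mk.injEq, Subtype.mk.injEq] at h3 h4
  obtain ⟨h5, h6, h7⟩ := h3
  have h8 := KK_large (B' := A) hU hL hG hA (hν y₀)
  obtain ⟨x₁, hx₁, h9, h10, h11⟩ := hν x₀ _ h8
  rw [h6] at h10 h7
  refine ⟨x₀, hx₀, y₀, hy₀, x₁, hx₁, mk hU hL [x₀, x₁] (by simpa using h9) A hA,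
    mk hU hL [y₀] (by simp) A hA, h4, rfl, rfl, Set.inter_subset_left, Set.inter_subset_left,
    A, hA, [x₀], x₁, [], y₀, rfl, rfl, rfl, ?_, ?_, ?_, ?_⟩
  · intro n x y hx hy
    match n with
    | 0 =>
      simp only [mk, List.getElem?_cons_zero, Option.some.injEq] at hx hy
      subst hx hy
      refine ⟨h5, fun x' hx' => ?_⟩
      simp only [mk, List.getElem?_cons_succ, List.getElem?_cons_zero, Option.some.injEq] at hx'
      rw [← hx', h10]
      exact h7
    | n + 1 => simp [mk] at hy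
  · intro z hz hyz
    refine ⟨hz, fun w hw => ?_⟩
    simp only [List.getLast?_singleton, Option.mem_def, Option.some.injEq] at hw
    rw [← hw]
    exact hyz
  · rw [h10]
    exact hν y₀
  · rw [h10]
    exact h11

end Pool.Agent.W872.SP
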