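import Pool.Agent.W872.SP.Basic
import Pool.Agent.W872.SP.Alg

/-!
# The strong Prikry property
-/

set_option linter.unusedSectionVars false
set_option linter.unusedVariables false

namespace Pool.Agent.W872.SP

open Cardinal Ordinal

variable {κ : Cardinal.{0}} {L : Type} [LinearOrder L] [WellFoundedLT L]
variable {U : Ultrafilter (PK κ L)}

theorem FineNormal.nat (hU : FineNormal κ U) {A : ℕ → Set (PK κ L)} (hA : ∀ n, A n ∈ U) :
    {y | ∀ n, y ∈ A n} ∈ U := by
  have h := hU.complete ℕ A (by rw [mk_nat]; exact hU.unc) hA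
  refine Filter.mem_of_superset h fun y hy n => Set.mem_iInter.1 hy n

theorem FineNormal.diagLength (hU : FineNormal κ U) (hL : κ.ord ≤ typeLT L) (n : ℕ) :
    ∀ A : List (PK κ L) → Set (PK κ L), (∀ s, A s ∈ U) →
      {y | ∀ s : List (PK κ L), s.length = n → (∀ x ∈ s, Prec κ x y) → y ∈ A s} ∈ U := by
  induction n with
  | zero =>
    intro A hA
    refine Filter.mem_of_superset (hA []) fun y hy s hs _ => ?_
    rw [List.length_eq_zero_iff.1 hs]
    exact hy
  | succ n ih =>
    intro A hA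
    refine Filter.mem_of_superset (hU.diag hL _ fun x => ih (fun s => A (x :: s)) fun s => hA _) ?_
    intro y hy s hs h
    match s, hs with
    | x :: s, hs =>
      refine hy x (h x (by simp)) s (by simpa using hs) fun z hz => h z (by simp [hz])

/-- diagonal intersections indexed by finite sequences -/
theorem FineNormal.diagList (hU : FineNormal κ U) (hL : κ.ord ≤ typeLT L)
    (A : List (PK κ L) → Set (PK κ L)) (hA : ∀ s, A s ∈ U) :
    {y | ∀ s : List (PK κ L), (∀ x ∈ s, Prec κ x y) → y ∈ A s} ∈ U := by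
  refine Filter.mem_of_superset (hU.nat fun n => hU.diagLength hL n A hA) fun y hy s h => ?_
  exact hy s.length s rfl h

theorem all_prec {s : List (PK κ L)} (hs : s.IsChain (Prec κ)) {y : PK κ L}
    (h : ∀ x ∈ s.getLast?, Prec κ x y) : ∀ x ∈ s, Prec κ x y := by
  induction s with
  | nil => simp
  | cons a s ih =>
    match s, ih, hs, h with
    | [], _, _, h => simpa using h
    | b :: s, ih, hs, h =>
      rw [List.isChain_cons_cons] at hs
      have h1 := ih hs.2 (by simpa using h)
      intro x hx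
      rcases List.mem_cons.1 hx with rfl | hx
      · exact hs.1.trans (h1 b (by simp))
      · exact h1 x hx

theorem last_prec {s : List (PK κ L)} {y : PK κ L}
    (h : ∀ x ∈ s, Prec κ x y) : ∀ x ∈ s.getLast?, Prec κ x y := fun x hx =>
  h x (List.mem_of_getLast? hx)

theorem chain_snoc {s : List (PK κ L)} {y : PK κ L} :
    (s ++ [y]).IsChain (Prec κ) ↔ s.IsChain (Prec κ) ∧ ∀ x ∈ s, Prec κ x y := by
  rw [List.isChain_append]
  constructor
  · rintro ⟨h1, h2, h3⟩
    exact ⟨h1, all_prec h1 fun x hx => h3 x hx y (by simp)⟩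
  · rintro ⟨h1, h2⟩
    refine ⟨h1, by simp, fun x hx z hz => ?_⟩
    simp only [List.head?_cons, Option.mem_def, Option.some.injEq] at hz
    rw [← hz]
    exact last_prec h2 x hx

/-- the condition with stem `s` and measure one set `A` -/
def mk (hU : FineNormal κ U) (hL : κ.ord ≤ typeLT L) (s : List (PK κ L))
    (hs : s.IsChain (Prec κ)) (A : Set (PK κ L)) (hA : A ∈ U) : Cond κ U where
  stem := s
  A := A ∩ {y | ∀ x ∈ s.getLast?, Prec κ x y}
  chain := hs
  mem := by
    refine hU.inter hA ?_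
    rcases h : s.getLast? with _ | x
    · simp only [Option.mem_def, reduceCtorEq, false_implies, implies_true]
      exact Filter.univ_mem
    · simp only [Option.mem_def, Option.some.injEq, forall_eq']
      exact hU.prec hL x
  above := fun x hx y hy => hy.2 x hx

variable (hU : FineNormal κ U) (hL : κ.ord ≤ typeLT L)

theorem Cond.all_above (p : Cond κ U) {y : PK κ L} (hy : y ∈ p.A) : ∀ x ∈ p.stem, Prec κ x y :=
  all_prec p.chain fun x hx => p.above x hx y hy

theorem mk_le {s : List (PK κ L)} {hs : s.IsChain (Prec κ)} {A : Set (PK κ L)} {hA : A ∈ U}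
    {p : Cond κ U} (r : List (PK κ L)) (h1 : s = p.stem ++ r) (h2 : ∀ y ∈ r, y ∈ p.A)
    (h3 : A ⊆ p.A) : mk hU hL s hs A hA ≤ p :=
  ⟨r, h1, h2, Set.inter_subset_left.trans h3⟩

/-- the stem `s` is `k` steps away from `D` -/
def Dn (D : Set (Cond κ U)) : ℕ → List (PK κ L) → Prop
  | 0, s => ∃ (hs : s.IsChain (Prec κ)) (A : Set (PK κ L)) (hA : A ∈ U), mk hU hL s hs A hA ∈ D
  | k + 1, s => {y | Dn D k (s ++ [y])} ∈ U

theorem exists_Dn {D : Set (Cond κ U)} (hD : DenseOpen D) (s : List (PK κ L))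
    (hs : s.IsChain (Prec κ)) : ∃ k, Dn hU hL D k s := by
  classical
  by_contra hbad
  set Bad : List (PK κ L) → Prop := fun s => ¬ ∃ k, Dn hU hL D k s with hBad
  have hstep : ∀ s, Bad s → {y | Bad (s ++ [y])} ∈ U := by
    intro s hs
    have h1 : ∀ k, {y | ¬ Dn hU hL D k (s ++ [y])} ∈ U := by
      intro k
      apply not_mem_compl
      intro h
      exact hs ⟨k + 1, h⟩
    refine Filter.mem_of_superset (hU.nat h1) ?_
    rintro y hy ⟨k, hk⟩
    exact hy k hk
  set A : List (PK κ L) → Set (PK κ L) := fun s => if Bad s then {y | Bad (s ++ [y])} else Set.univ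
    with hAdef
  have hA : ∀ s, A s ∈ U := by
    intro s
    by_cases h : Bad s
    · simp only [hAdef, h, if_true]
      exact hstep s h
    · simp only [hAdef, h, if_false]
      exact Filter.univ_mem
  have hB := hU.diagList hL A hA
  obtain ⟨q, ⟨r, h1, h2, h3⟩, hq⟩ := hD.2 (mk hU hL s hs _ hB)
  have h4 : Bad q.stem := by
    have key : ∀ r : List (PK κ L), (s ++ r).IsChain (Prec κ) →
        (∀ y ∈ r, y ∈ {y | ∀ s : List (PK κ L), (∀ x ∈ s, Prec κ x y) → y ∈ A s}) →
        Bad (s ++ r) := by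
      intro r
      induction r using List.reverseRecOn with
      | nil => intro _ _; rw [List.append_nil]; exact hbad
      | append_singleton r y ih =>
        intro hc hr
        rw [← List.append_assoc] at hc ⊢
        rw [chain_snoc] at hc
        have h5 := ih hc.1 fun z hz => hr z (by simp [hz])
        have h6 := hr y (by simp) (s ++ r) hc.2
        simp only [hAdef, h5, if_true] at h6
        exact h6
    rw [h1]
    refine key r ?_ fun y hy => (h2 y hy).1
    have := q.chain
    rwa [h1] at this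
  refine h4 ⟨0, q.chain, q.A, q.mem, hD.1 q hq _ (mk_le hU hL [] (by simp) (by simp) le_rfl)⟩

/-- the strong Prikry property -/
theorem strong_prikry {D : Set (Cond κ U)} (hD : DenseOpen D) :
    ∃ B ∈ U, (∀ k s y, Dn hU hL D (k + 1) s → y ∈ B → (∀ x ∈ s, Prec κ x y) →
      Dn hU hL D k (s ++ [y])) ∧
      (∀ s (hs : s.IsChain (Prec κ)), Dn hU hL D 0 s → ∀ A (hA : A ∈ U), A ⊆ B →
        mk hU hL s hs A hA ∈ D) := by
  classical
  have h1 : ∀ s : List (PK κ L), ∃ A ∈ U, (∀ k, Dn hU hL D (k + 1) s → A ⊆ {y | Dn hU hL D k (s ++ [y])}) ∧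
      ∀ hs : s.IsChain (Prec κ), Dn hU hL D 0 s → ∃ (A' : _) (hA' : A' ∈ U), A ⊆ A' ∧ mk hU hL s hs A' hA' ∈ D := by
    intro s
    have h2 : ∀ k, ∃ A ∈ U, Dn hU hL D (k + 1) s → A ⊆ {y | Dn hU hL D k (s ++ [y])} := by
      intro k
      by_cases h : Dn hU hL D (k + 1) s
      · exact ⟨_, h, fun _ => le_rfl⟩
      · exact ⟨Set.univ, Filter.univ_mem, fun h' => absurd h' h⟩
    choose A hA hA' using h2
    have h3 := hU.nat hA
    by_cases h : Dn hU hL D 0 s
    · obtain ⟨hs, A', hA'', hm⟩ := h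
      exact ⟨_, hU.inter h3 hA'', fun k hk y hy => hA' k hk (hy.1 k), fun _ _ =>
        ⟨A', hA'', fun y hy => hy.2, hm⟩⟩
    · exact ⟨_, h3, fun k hk y hy => hA' k hk (hy k), fun _ h' => absurd h' h⟩
  choose A hA h2 h3 using h1
  refine ⟨_, hU.diagList hL A hA, fun k s y hk hy hs => h2 s k hk (hy s hs), fun s hs h0 A' hA' hsub => ?_⟩
  obtain ⟨A'', hA'', h4, h5⟩ := h3 s hs h0
  refine hD.1 _ h5 _ ⟨[], by simp [mk], by simp, ?_⟩
  rintro y ⟨hy, hy'⟩
  exact ⟨h4 (hsub hy s (all_prec hs hy')), hy'⟩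

include hU hL in
/-- extension by one element -/
theorem ext_one (p : Cond κ U) {y : PK κ L} (hy : y ∈ p.A) (A : Set (PK κ L)) (hA : A ∈ U)
    (hAp : A ⊆ p.A) : ∃ q ≤ p, q.stem = p.stem ++ [y] ∧ q.A ⊆ A := by
  have hc : (p.stem ++ [y]).IsChain (Prec κ) := chain_snoc.2 ⟨p.chain, p.all_above hy⟩
  exact ⟨mk hU hL _ hc A hA, mk_le hU hL [y] rfl (by simpa using hy) hAp, rfl,
    Set.inter_subset_left⟩

theorem length_le_of_le {p q : Cond κ U} (h : q ≤ p) : p.stem.length ≤ q.stem.length := by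
  obtain ⟨r, h, -, -⟩ := h
  rw [h, List.length_append]
  omega

include hU hL in
theorem exists_length (n : ℕ) (p : Cond κ U) : ∃ q ≤ p, n ≤ q.stem.length := by
  induction n with
  | zero => exact ⟨p, le_rfl, Nat.zero_le _⟩
  | succ n ih =>
    obtain ⟨q, hq, hn⟩ := ih
    obtain ⟨y, hy⟩ := nonempty_of_mem q.mem
    obtain ⟨q', hq', h1, -⟩ := ext_one hU hL q hy q.A q.mem le_rfl
    refine ⟨q', hq'.trans hq, ?_⟩
    rw [h1, List.length_append, List.length_singleton]
    omega

include hU hL in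
theorem denseOpen_length (n : ℕ) : DenseOpen {p : Cond κ U | n ≤ p.stem.length} :=
  ⟨fun _ hp _ hq => le_trans hp (length_le_of_le hq), fun p => exists_length hU hL n p⟩

theorem getElem?_of_le {p q : Cond κ U} (h : q ≤ p) {n : ℕ} {x : PK κ L}
    (hx : p.stem[n]? = some x) : q.stem[n]? = some x := by
  obtain ⟨r, h, -, -⟩ := h
  rw [h, List.getElem?_append_left]
  · exact hx
  · exact (List.getElem?_eq_some_iff.1 hx).1

end Pool.Agent.W872.SP
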